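import Mathlib

/-!
# Pairs of grid points, conflicts, conflict-free sets
-/

namespace K1H16.TS

/-- A pair `s = (a,x) ≤ t = (b,y)` of points of the grid `ℤ × ℤ`. -/
@[ext] structure Pr where
  a : ℤ
  x : ℤ
  b : ℤ
  y : ℤ
deriving DecidableEq

/-- `s ≤ t`, `s ≠ t`. -/
def Pr.Ok (u : Pr) : Prop := u.a ≤ u.b ∧ u.x ≤ u.y ∧ (u.a < u.b ∨ u.x < u.y)

/-- The conflict relation `s₁ ≤ s₂`, `t₁ ≤ t₂`, `t₁ ≰ s₂`. -/
def Cf (u v : Pr) : Prop :=
  u.a ≤ v.a ∧ u.x ≤ v.x ∧ u.b ≤ v.b ∧ u.y ≤ v.y ∧ (v.a < u.b ∨ v.x < u.y)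

/-- Conflict-free finite sets of pairs. -/
def Ind (S : Finset Pr) : Prop := ∀ u ∈ S, ∀ v ∈ S, Cf u v → u = v

theorem Ind.subset {S T : Finset Pr} (hT : Ind T) (h : S ⊆ T) : Ind S :=
  fun u hu v hv hc => hT u (h hu) v (h hv) hc

/-- The pairs of the grid `[0,n] × [0,m]`. -/
def Gr (n m : ℤ) (u : Pr) : Prop := u.Ok ∧ 0 ≤ u.a ∧ u.b ≤ n ∧ 0 ≤ u.x ∧ u.y ≤ m

/-- A conflict-free set whose elements are sorted into `k` cliques has at most `k` elements. -/
theorem card_le_idx {S : Finset Pr} (hS : Ind S) (f : Pr → ℤ) (k : ℕ)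
    (h1 : ∀ u ∈ S, 0 ≤ f u ∧ f u < k)
    (h2 : ∀ u ∈ S, ∀ v ∈ S, f u = f v → u = v ∨ Cf u v ∨ Cf v u) : S.card ≤ k := by
  have hc : (Finset.Ico (0:ℤ) k).card = k := by simp
  rw [← hc]
  refine Finset.card_le_card_of_injOn f (fun u hu => ?_) ?_
  · simpa using h1 u hu
  · intro u hu v hv huv
    rcases h2 u hu v hv huv with h | h | h
    · exact h
    · exact hS u hu v hv h
    · exact (hS v hv u hu h).symm

/-- In the situation of `card_le_idx`, if `S` has `k` elements, then every clique is hit. -/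
theorem surj_of_card {S : Finset Pr} (hS : Ind S) (f : Pr → ℤ) (k : ℕ)
    (h1 : ∀ u ∈ S, 0 ≤ f u ∧ f u < k)
    (h2 : ∀ u ∈ S, ∀ v ∈ S, f u = f v → u = v ∨ Cf u v ∨ Cf v u) (hk : S.card = k)
    (c : ℤ) (hc0 : 0 ≤ c) (hck : c < k) : ∃ u ∈ S, f u = c := by
  have hc : (Finset.Ico (0:ℤ) k).card = k := by simp
  have hinj : Set.InjOn f S := by
    intro u hu v hv huv
    rcases h2 u hu v hv huv with h | h | h
    · exact h
    · exact hS u hu v hv h
    · exact (hS v hv u hu h).symm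
  have himg : S.image f = Finset.Ico (0:ℤ) k := by
    apply Finset.eq_of_subset_of_card_le
    · intro c hc
      obtain ⟨u, hu, rfl⟩ := Finset.mem_image.1 hc
      simpa using h1 u hu
    · rw [hc, Finset.card_image_of_injOn hinj, hk]
  have : c ∈ S.image f := by rw [himg]; simp [hc0, hck]
  obtain ⟨u, hu, h⟩ := Finset.mem_image.1 this
  exact ⟨u, hu, h⟩

/-- Lower bound version: if every clique index is hit, the set has at least `k` elements. -/
theorem le_card_of_surj {S : Finset Pr} (f : Pr → ℤ) (k : ℕ)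
    (h : ∀ c : ℤ, 0 ≤ c → c < k → ∃ u ∈ S, f u = c) : k ≤ S.card := by
  have hc : (Finset.Ico (0:ℤ) k).card = k := by simp
  rw [← hc]
  have : Finset.Ico (0:ℤ) k ⊆ S.image f := by
    intro c hc
    rw [Finset.mem_Ico] at hc
    obtain ⟨u, hu, h⟩ := h c hc.1 hc.2
    exact Finset.mem_image.2 ⟨u, hu, h⟩
  exact (Finset.card_le_card this).trans Finset.card_image_le

end K1H16.TS
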