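import Pool.Agent.K1H16.TS.Shell

/-!
# Interface: complexity of transfer systems of `C_{p^n q^m}` (MP_0ca1b9_co)

Every piece is a `def S_X : Prop`; a helper proves `theorem X : S_X` in its own file.
-/

namespace K1H16.TS

/-- the conjectured value -/
def F (n m : ℕ) : ℕ :=
  if (n + m) % 2 = 1 then (n - m - 1) / 2 * (m + 2).choose 2 + (m + 3).choose 3
  else if m = 2 then 6 * (n / 2) + 1
  else (n - m) / 2 * (m + 2).choose 2 + (m + 3).choose 3 - (m + 2) ^ 2 / 4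

/-- the element of the outer layer of level `n+m` with coordinates `x`, `b` -/
def lv (n m x b : ℤ) : Pr := ⟨max 0 (n - x - b), x, b, min m (n + m - x - b)⟩

/-- all elements of level `n+m` of the outer layer with `x ≤ m-1`, except
`([k,k+1],[m-1,m])`, lie in `S`; and the degenerate element `([k,k+1],{m})` too. -/
def Full (n m k : ℤ) (S : Finset Pr) : Prop :=
  (∀ x b : ℤ, 0 ≤ x → x ≤ m - 1 → 0 ≤ b → b ≤ n → n ≤ x + 2 * b → 2 * x + b ≤ n + m →
    ¬ (x = m - 1 ∧ b = k + 1) → lv n m x b ∈ S) ∧ (⟨k, m, k + 1, m⟩ : Pr) ∈ S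

/-- (structure theorem) -/
def S_struct : Prop := ∀ n m k : ℕ, Even m → 2 ≤ m → n = m + 2 * k → ∀ S : Finset Pr, Ind S →
  (∀ u ∈ S, OL n m u) → S.card = g (2 * k) m →
  Full n m k S ∧ (⟨k, m - 1, k, m⟩ : Pr) ∈ S ∧ (1 ≤ k → (⟨k - 1, m, k, m⟩ : Pr) ∈ S)

/-- (second layer) -/
def S_T3 : Prop := ∀ n m k : ℕ, Even m → 4 ≤ m → n = m + 2 * k → ∀ S : Finset Pr, Ind S →
  (∀ u ∈ S, Gr n m u) → Full n m k S →
  (S.filter (fun u : Pr => 1 ≤ u.a ∧ u.y ≤ (m : ℤ) - 1 ∧ (u.a = 1 ∨ u.y = (m : ℤ) - 1))).card + 1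
    ≤ n * m / 2

/-- (outer layer for `m = 3`) -/
def S_T4 : Prop := ∀ n h : ℕ, n = 2 * h + 1 → 1 ≤ h → ∀ S : Finset Pr, Ind S →
  (∀ u ∈ S, Gr n 3 u) →
  (∀ p : ℤ, 1 ≤ p → 2 * p ≤ n + 1 → (⟨p, 0, n + 1 - p, 2⟩ : Pr) ∈ S) →
  (∀ p : ℤ, 1 ≤ p → 2 * p ≤ n - 3 → (⟨p, 1, n - p, 2⟩ : Pr) ∈ S) →
  (⟨1, 1, n, 1⟩ : Pr) ∈ S → (⟨h, 1, h, 2⟩ : Pr) ∈ S → (⟨h, 2, h + 1, 2⟩ : Pr) ∈ S →
  (2 ≤ h → (⟨h - 1, 2, h, 2⟩ : Pr) ∈ S) →
  (S.filter (fun u : Pr => u.a = 0 ∨ u.y = 3)).card ≤ 2 * n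

/-- upper bound for conflict-free sets -/
def S_upper : Prop := ∀ n m : ℕ, 2 ≤ m → m ≤ n → ∀ S : Finset Pr, Ind S → (∀ u ∈ S, Gr n m u) →
  S.card ≤ F n m

/-- lower bound for conflict-free sets -/
def S_lower : Prop := ∀ n m : ℕ, 2 ≤ m → m ≤ n → ∃ S : Finset Pr, Ind S ∧ (∀ u ∈ S, Gr n m u) ∧
  F n m ≤ S.card

/-! ### Transfer systems -/

/-- `R` is a transfer system for the group `G`. -/
structure IsTransfer {G : Type} [Group G] (R : Subgroup G → Subgroup G → Prop) : Prop where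
  refl : ∀ K, R K K
  trans : ∀ K L H, R K L → R L H → R K H
  antisymm : ∀ K H, R K H → R H K → K = H
  le : ∀ K H, R K H → K ≤ H
  conj : ∀ K H, R K H → ∀ g : G,
    R (K.map (MulAut.conj g).toMonoidHom) (H.map (MulAut.conj g).toMonoidHom)
  restr : ∀ K H L, R K H → L ≤ H → R (K ⊓ L) L

/-- The smallest transfer system containing the pairs of `S`. -/
def gen {G : Type} [Group G] (S : Set (Subgroup G × Subgroup G)) :
    Subgroup G → Subgroup G → Prop :=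
  fun K H => ∀ R : Subgroup G → Subgroup G → Prop, IsTransfer R → (∀ e ∈ S, R e.1 e.2) → R K H

/-- `S` is a basis of `T`. -/
def IsBasis {G : Type} [Group G] (T : Subgroup G → Subgroup G → Prop)
    (S : Set (Subgroup G × Subgroup G)) : Prop :=
  (∀ e ∈ S, e.1 < e.2 ∧ T e.1 e.2) ∧ gen S = T

/-- `S` is a minimal basis of `T`. -/
def IsMinBasis {G : Type} [Group G] (T : Subgroup G → Subgroup G → Prop)
    (S : Set (Subgroup G × Subgroup G)) : Prop :=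
  IsBasis T S ∧ ∀ S' ⊂ S, gen S' ≠ T

/-- `𝔪(T)`, the size of the minimal bases of `T` (the least one; they all have the same size
for a cyclic group, see `S_transfer`). -/
noncomputable def mBasis {G : Type} [Group G] (T : Subgroup G → Subgroup G → Prop) : ℕ :=
  sInf {k | ∃ S, IsMinBasis T S ∧ S.ncard = k}

/-- from transfer systems to conflict-free sets of pairs of grid points -/
def S_transfer : Prop := ∀ (G : Type) [Group G] [IsCyclic G] (p q n m : ℕ),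
  p.Prime → q.Prime → p ≠ q → Nat.card G = p ^ n * q ^ m →
    (∀ T : Subgroup G → Subgroup G → Prop, IsTransfer T →
      (∃ S, IsMinBasis T S) ∧ (∀ S, IsMinBasis T S → S.Finite ∧ S.ncard = mBasis T) ∧
      ∃ E : Finset Pr, Ind E ∧ (∀ u ∈ E, Gr n m u) ∧ E.card = mBasis T) ∧
    (∀ E : Finset Pr, Ind E → (∀ u ∈ E, Gr n m u) →
      ∃ T : Subgroup G → Subgroup G → Prop, IsTransfer T ∧ mBasis T = E.card)

end K1H16.TS
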