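import Pool.Agent.K1H16.TS.Upper
import Pool.Agent.K1H7.TS.Grp
import Pool.Agent.K1H95.TS.T3

namespace K1H16.TS

theorem final (h4 : S_T4) (hl : S_lower) {p q : ℕ} (hp : p.Prime) (hq : q.Prime)
    (hpq : p ≠ q) {n m : ℕ} (hm : 2 ≤ m) (hnm : m ≤ n) (G : Type) [Group G] [IsCyclic G]
    (hG : Nat.card G = p ^ n * q ^ m) :
    (∀ T : Subgroup G → Subgroup G → Prop, IsTransfer T →
      (∃ S, IsMinBasis T S) ∧ ∀ S, IsMinBasis T S → S.Finite ∧ S.ncard = mBasis T) ∧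
    IsGreatest {k | ∃ T : Subgroup G → Subgroup G → Prop, IsTransfer T ∧ mBasis T = k} (F n m) := by
  obtain ⟨h1, h2⟩ := Pool.Agent.K1H7.TS.t_transfer G p q n m hp hq hpq hG
  have hu := t_upper K1H95.TS.t_T3 h4
  refine ⟨fun T hT => ⟨(h1 T hT).1, (h1 T hT).2.1⟩, ?_, ?_⟩
  · obtain ⟨E, hE, hEG, hEc⟩ := hl n m hm hnm
    obtain ⟨T, hT, hTc⟩ := h2 E hE hEG
    exact ⟨T, hT, hTc.trans (le_antisymm (hu n m hm hnm E hE hEG) hEc)⟩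
  · rintro k ⟨T, hT, rfl⟩
    obtain ⟨E, hE, hEG, hEc⟩ := (h1 T hT).2.2
    rw [← hEc]
    exact hu n m hm hnm E hE hEG

end K1H16.TS
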