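import Pool.Agent.K1H16.TS.Stm

/-!
# Removing the outer layer; the case `m = 1`; arithmetic of `F`
-/

set_option linter.unusedVariables false

namespace K1H16.TS

/-- shift of the inner part -/
def sft (u : Pr) : Pr := ⟨u.a - 1, u.x, u.b - 1, u.y⟩

theorem sft_inj : Function.Injective sft := by
  intro u v h
  unfold sft at h
  simp only [Pr.mk.injEq] at h
  apply ok_of_eq
  omega

/-- inner part, shifted -/
def inn (m : ℤ) (S : Finset Pr) : Finset Pr :=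
  (S.filter (fun u : Pr => 1 ≤ u.a ∧ u.y ≤ m - 1)).image sft

/-- outer layer -/
def out (m : ℤ) (S : Finset Pr) : Finset Pr := S.filter (fun u : Pr => u.a = 0 ∨ u.y = m)

theorem mem_inn {m : ℤ} {S : Finset Pr} {u : Pr} :
    u ∈ inn m S ↔ (⟨u.a + 1, u.x, u.b + 1, u.y⟩ : Pr) ∈ S ∧ 0 ≤ u.a ∧ u.y ≤ m - 1 := by
  unfold inn
  rw [Finset.mem_image]
  constructor
  · rintro ⟨v, hv, rfl⟩
    rw [Finset.mem_filter] at hv
    refine ⟨?_, ?_⟩
    · have : (⟨(sft v).a + 1, (sft v).x, (sft v).b + 1, (sft v).y⟩ : Pr) = v := by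
        apply ok_of_eq; simp [sft]
      rw [this]; exact hv.1
    · simp only [sft]; omega
  · rintro ⟨h1, h2, h3⟩
    refine ⟨_, Finset.mem_filter.2 ⟨h1, ?_, ?_⟩, ?_⟩
    · simp only; omega
    · simpa using h3
    · apply ok_of_eq; simp [sft]

theorem inn_ind {m : ℤ} {S : Finset Pr} (hS : Ind S) : Ind (inn m S) := by
  intro u hu v hv hc
  rw [mem_inn] at hu hv
  have := hS _ hu.1 _ hv.1 (by
    unfold Cf at hc ⊢
    simp only
    omega)
  simp only [Pr.mk.injEq] at this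
  apply ok_of_eq
  omega

theorem inn_gr {n m : ℤ} {S : Finset Pr} (hS : ∀ u ∈ S, Gr n m u) :
    ∀ u ∈ inn m S, Gr (n - 1) (m - 1) u := by
  intro u hu
  rw [mem_inn] at hu
  obtain ⟨hu1, hu2, hu3⟩ := hu
  obtain ⟨⟨h1, h2, h3⟩, h4, h5, h6, h7⟩ := hS _ hu1
  simp only at h1 h2 h3 h4 h5 h6 h7
  unfold Gr Pr.Ok
  omega

theorem out_ol {n m : ℤ} {S : Finset Pr} (hS : ∀ u ∈ S, Gr n m u) : ∀ u ∈ out m S, OL n m u := by
  intro u hu
  unfold out at hu
  rw [Finset.mem_filter] at hu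
  exact ⟨hS u hu.1, hu.2⟩

theorem out_ind {m : ℤ} {S : Finset Pr} (hS : Ind S) : Ind (out m S) :=
  hS.subset (Finset.filter_subset _ _)

theorem card_layers {n m : ℤ} {S : Finset Pr} (hS : ∀ u ∈ S, Gr n m u) :
    S.card = (out m S).card + (inn m S).card := by
  unfold inn out
  rw [Finset.card_image_of_injective _ sft_inj]
  have : S.filter (fun u : Pr => 1 ≤ u.a ∧ u.y ≤ m - 1) =
      S.filter (fun u : Pr => ¬ (u.a = 0 ∨ u.y = m)) := by
    apply Finset.filter_congr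
    intro u hu
    obtain ⟨⟨h1, h2, h3⟩, h4, h5, h6, h7⟩ := hS u hu
    omega
  rw [this, Finset.card_filter_add_card_filter_not]

theorem card_out_inn {m : ℤ} {S : Finset Pr} : (out (m - 1) (inn m S)).card =
    (S.filter (fun u : Pr => 1 ≤ u.a ∧ u.y ≤ m - 1 ∧ (u.a = 1 ∨ u.y = m - 1))).card := by
  have : out (m - 1) (inn m S) = (S.filter
      (fun u : Pr => 1 ≤ u.a ∧ u.y ≤ m - 1 ∧ (u.a = 1 ∨ u.y = m - 1))).image sft := by
    ext u
    unfold out
    rw [Finset.mem_filter, mem_inn, Finset.mem_image]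
    constructor
    · rintro ⟨⟨h1, h2, h3⟩, h4⟩
      refine ⟨_, Finset.mem_filter.2 ⟨h1, ?_⟩, ?_⟩
      · simp only; omega
      · apply ok_of_eq; simp [sft]
    · rintro ⟨v, hv, rfl⟩
      rw [Finset.mem_filter] at hv
      refine ⟨⟨?_, ?_⟩, ?_⟩
      · have : (⟨(sft v).a + 1, (sft v).x, (sft v).b + 1, (sft v).y⟩ : Pr) = v := by
          apply ok_of_eq; simp [sft]
        rw [this]; exact hv.1
      · simp only [sft]; omega
      · simp only [sft]; omega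
  rw [this, Finset.card_image_of_injective _ sft_inj]

/-- index for `m = 1` -/
def ix (n : ℤ) (u : Pr) : ℤ :=
  if u.y = 0 then u.b - 1 else if u.x = 1 then u.a else n + (u.b - u.a) / 2

/-- the case `m = 1` -/
theorem one_le {n : ℕ} {S : Finset Pr} (hS : Ind S) (hG : ∀ u ∈ S, Gr n 1 u) :
    S.card ≤ n + n / 2 + 1 := by
  refine card_le_idx hS (ix n) _ ?_ ?_
  · intro u hu
    obtain ⟨⟨h1, h2, h3⟩, h4, h5, h6, h7⟩ := hG u hu
    unfold ix
    push_cast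
    split_ifs <;> omega
  · intro u hu v hv h
    obtain ⟨⟨h1, h2, h3⟩, h4, h5, h6, h7⟩ := hG u hu
    obtain ⟨⟨k1, k2, k3⟩, k4, k5, k6, k7⟩ := hG v hv
    by_cases e : u.a = v.a ∧ u.x = v.x ∧ u.b = v.b ∧ u.y = v.y
    · exact Or.inl (ok_of_eq e)
    · right
      unfold Cf
      unfold ix at h
      split_ifs at h <;> omega

theorem two_choose (m : ℕ) : 2 * (m + 2).choose 2 = (m + 2) * (m + 1) := by
  rw [Nat.choose_two_right]
  have : 2 ∣ (m + 2) * (m + 2 - 1) := by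
    have := Nat.even_mul_pred_self (m + 2)
    exact this.two_dvd
  rw [Nat.mul_div_cancel' this]
  rfl

theorem F_odd (d m : ℕ) : F (m + 1 + 2 * d) m = d * (m + 2).choose 2 + (m + 3).choose 3 := by
  unfold F
  rw [if_pos (by omega)]
  congr 2
  omega

theorem sq_le (m : ℕ) : (m + 2) ^ 2 / 4 ≤ (m + 3).choose 3 := by
  induction m with
  | zero => decide
  | succ m ih =>
    have h1 : (m + 1 + 3).choose 3 = (m + 3).choose 2 + (m + 3).choose 3 :=
      Nat.choose_succ_succ (m + 3) 2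
    have h2 := two_choose (m + 1)
    rw [h1]
    have h3 : (m + 1 + 2).choose 2 = (m + 3).choose 2 := rfl
    rw [h3] at h2
    have h4 : (m + 1 + 2) ^ 2 / 4 ≤ (m + 2) ^ 2 / 4 + (m + 3) := by
      have : (m + 1 + 2) ^ 2 ≤ (m + 2) ^ 2 + (m + 3) * 4 := by nlinarith
      calc (m + 1 + 2) ^ 2 / 4 ≤ ((m + 2) ^ 2 + (m + 3) * 4) / 4 := Nat.div_le_div_right this
        _ = _ := by rw [Nat.add_mul_div_right _ _ (by norm_num)]
    have h5 : m + 3 ≤ (m + 3).choose 2 := by nlinarith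
    omega

theorem F_even (d m : ℕ) (hm : 3 ≤ m) :
    F (m + 2 * d) m + (m + 2) ^ 2 / 4 = d * (m + 2).choose 2 + (m + 3).choose 3 := by
  unfold F
  rw [if_neg (by omega), if_neg (by omega), show (m + 2 * d - m) / 2 = d by omega]
  have := sq_le m
  omega

/-- recursion, `n + m` odd -/
theorem F_rec_odd (d m : ℕ) :
    2 * F (m + 2 + 2 * d) (m + 1) = 2 * F (m + 1 + 2 * d) m + (m + 2 + 2 * d + 1) * (m + 2) := by
  have h1 := F_odd d (m + 1)
  have h2 := F_odd d m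
  rw [show m + 1 + 1 + 2 * d = m + 2 + 2 * d by ring] at h1
  rw [h1, h2]
  have h3 : (m + 1 + 3).choose 3 = (m + 3).choose 2 + (m + 3).choose 3 :=
    Nat.choose_succ_succ (m + 3) 2
  have h4 := two_choose (m + 1)
  have h5 := two_choose m
  have h6 : (m + 1 + 2).choose 2 = (m + 3).choose 2 := rfl
  rw [h6] at h4 ⊢
  rw [h3]
  nlinarith

/-- recursion, `n` and `m` odd -/
theorem F_rec_oo (d m : ℕ) (hm : 3 ≤ m) (ev : m % 2 = 0) :
    2 * F (m + 1 + 2 * d) (m + 1) = 2 * F (m + 2 * d) m + (m + 1 + 2 * d + 1) * (m + 2) := by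
  have h1 := F_even d (m + 1) (by omega)
  have h2 := F_even d m hm
  have h3 : (m + 1 + 3).choose 3 = (m + 3).choose 2 + (m + 3).choose 3 :=
    Nat.choose_succ_succ (m + 3) 2
  have h4 := two_choose (m + 1)
  have h5 := two_choose m
  have h6 : (m + 1 + 2).choose 2 = (m + 3).choose 2 := rfl
  rw [h6] at h4 h1
  rw [h3] at h1
  obtain ⟨μ, rfl⟩ : ∃ μ, m = 2 * μ := ⟨m / 2, by omega⟩
  have e1 : (2 * μ + 2) ^ 2 / 4 = (μ + 1) ^ 2 := by
    rw [show (2 * μ + 2) ^ 2 = 4 * (μ + 1) ^ 2 by ring]; omega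
  have e2 : (2 * μ + 1 + 2) ^ 2 / 4 = (μ + 1) ^ 2 + (μ + 1) := by
    rw [show (2 * μ + 1 + 2) ^ 2 = 4 * ((μ + 1) ^ 2 + (μ + 1)) + 1 by ring]; omega
  rw [e1] at h2
  rw [e2] at h1
  nlinarith

/-- recursion, `n` and `m` even -/
theorem F_rec_ee (d m : ℕ) (hm : 3 ≤ m) (ev : m % 2 = 1) :
    2 * F (m + 1 + 2 * d) (m + 1) + 1 = 2 * F (m + 2 * d) m + (m + 1 + 2 * d + 1) * (m + 2) := by
  have h1 := F_even d (m + 1) (by omega)
  have h2 := F_even d m hm
  have h3 : (m + 1 + 3).choose 3 = (m + 3).choose 2 + (m + 3).choose 3 :=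
    Nat.choose_succ_succ (m + 3) 2
  have h4 := two_choose (m + 1)
  have h5 := two_choose m
  have h6 : (m + 1 + 2).choose 2 = (m + 3).choose 2 := rfl
  rw [h6] at h4 h1
  rw [h3] at h1
  obtain ⟨μ, rfl⟩ : ∃ μ, m = 2 * μ + 1 := ⟨m / 2, by omega⟩
  have e1 : (2 * μ + 1 + 2) ^ 2 / 4 = (μ + 1) ^ 2 + (μ + 1) := by
    rw [show (2 * μ + 1 + 2) ^ 2 = 4 * ((μ + 1) ^ 2 + (μ + 1)) + 1 by ring]; omega
  have e2 : (2 * μ + 1 + 1 + 2) ^ 2 / 4 = (μ + 2) ^ 2 := by
    rw [show (2 * μ + 1 + 1 + 2) ^ 2 = 4 * (μ + 2) ^ 2 by ring]; omega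
  rw [e1] at h2
  rw [e2] at h1
  nlinarith

end K1H16.TS
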