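import Pool.Agent.K1H16.TS.Basic

/-!
# Clique cover of the outer layer `a = 0` or `y = m`
-/

set_option linter.unusedVariables false

namespace K1H16.TS

/-- third coordinate along the outer layer -/
def zc (m : ℤ) (u : Pr) : ℤ := if u.a = 0 then u.y else m + u.a

/-- clique index in the outermost shell -/
def i0 (m x b z : ℤ) : ℤ :=
  if b = 0 then z - 1 else if x = m then z else if z = m + b then x
  else if z = x ∨ x = m - 1 ∨ (2 ≤ b ∧ z = x + 1) then m + b - 1 else x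

/-- clique index in the inner shells -/
def i1 (M x b z : ℤ) : ℤ :=
  if b = 0 then (if z = M - 1 then M else if z = M then M - 1 else z)
  else if x = M then (if z = M then M - 1 else z - 1)
  else if x = M - 1 ∨ (2 ≤ b ∧ z ≤ x + 1) then M + b - 1 else x

/-- `z`-coordinate, relational form -/
def Zr (m a y z : ℤ) : Prop := (a = 0 ∧ z = y) ∨ (0 < a ∧ y = m ∧ z = m + a)

theorem zc_Zr {m : ℤ} {u : Pr} (h0 : 0 ≤ u.a) (h : u.a = 0 ∨ u.y = m) :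
    Zr m u.a u.y (zc m u) := by
  unfold Zr zc
  split_ifs with h1
  · left; exact ⟨h1, rfl⟩
  · right; exact ⟨by omega, by tauto, rfl⟩

theorem i0_range {n m a x b y z : ℤ} (hm : 1 ≤ m) (hn : m ≤ n)
    (h1 : a ≤ b) (h2 : x ≤ y) (h3 : a < b ∨ x < y) (h4 : 0 ≤ a) (h5 : b ≤ n) (h6 : 0 ≤ x)
    (h7 : y ≤ m) (h8 : Zr m a y z)
    (h9 : ¬ (a + 2 ≤ b ∧ x + 2 ≤ y)) : 0 ≤ i0 m x b z ∧ i0 m x b z < n + m := by
  unfold Zr at h8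
  unfold i0
  split_ifs <;> omega

theorem i0_clique {n m a x b y z a' x' b' y' z' : ℤ} (hm : 1 ≤ m) (hn : m ≤ n)
    (h1 : a ≤ b) (h2 : x ≤ y) (h3 : a < b ∨ x < y) (h4 : 0 ≤ a) (h5 : b ≤ n) (h6 : 0 ≤ x)
    (h7 : y ≤ m) (h8 : Zr m a y z)
    (h9 : ¬ (a + 2 ≤ b ∧ x + 2 ≤ y))
    (h1' : a' ≤ b') (h2' : x' ≤ y') (h3' : a' < b' ∨ x' < y') (h4' : 0 ≤ a') (h5' : b' ≤ n)
    (h6' : 0 ≤ x') (h7' : y' ≤ m) (h8' : Zr m a' y' z')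
    (h9' : ¬ (a' + 2 ≤ b' ∧ x' + 2 ≤ y')) (h : i0 m x b z = i0 m x' b' z')
    (hle : x + b + z ≤ x' + b' + z') :
    (a = a' ∧ x = x' ∧ b = b' ∧ y = y') ∨
      (a ≤ a' ∧ x ≤ x' ∧ b ≤ b' ∧ y ≤ y' ∧ (a' < b ∨ x' < y)) := by
  unfold Zr at h8 h8'
  unfold i0 at h
  split_ifs at h <;> omega

theorem i1_range {n m j a x b y z : ℤ} (hj : 2 ≤ j) (hm : j + 1 ≤ m) (hn : m ≤ n)
    (h1 : a + j ≤ b) (h2 : x + j ≤ y) (h4 : 0 ≤ a) (h5 : b ≤ n) (h6 : 0 ≤ x)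
    (h7 : y ≤ m) (h8 : Zr m a y z)
    (h9 : ¬ (a + j + 2 ≤ b ∧ x + j + 2 ≤ y)) :
    0 ≤ i1 (m - j) x (b - j) (z - j) ∧ i1 (m - j) x (b - j) (z - j) < n - j + (m - j) := by
  unfold Zr at h8
  unfold i1
  split_ifs <;> omega

theorem i1_clique {n m j a x b y z a' x' b' y' z' : ℤ} (hj : 2 ≤ j) (hm : j + 1 ≤ m) (hn : m ≤ n)
    (h1 : a + j ≤ b) (h2 : x + j ≤ y) (h4 : 0 ≤ a) (h5 : b ≤ n) (h6 : 0 ≤ x)
    (h7 : y ≤ m) (h8 : Zr m a y z)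
    (h9 : ¬ (a + j + 2 ≤ b ∧ x + j + 2 ≤ y))
    (h1' : a' + j ≤ b') (h2' : x' + j ≤ y') (h4' : 0 ≤ a') (h5' : b' ≤ n) (h6' : 0 ≤ x')
    (h7' : y' ≤ m) (h8' : Zr m a' y' z')
    (h9' : ¬ (a' + j + 2 ≤ b' ∧ x' + j + 2 ≤ y'))
    (h : i1 (m - j) x (b - j) (z - j) = i1 (m - j) x' (b' - j) (z' - j))
    (hle : x + b + z ≤ x' + b' + z') :
    (a = a' ∧ x = x' ∧ b = b' ∧ y = y') ∨
      (a ≤ a' ∧ x ≤ x' ∧ b ≤ b' ∧ y ≤ y' ∧ (a' < b ∨ x' < y)) := by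
  unfold Zr at h8 h8'
  unfold i1 at h
  split_ifs at h <;> omega

theorem core_clique {n m a x b y a' x' b' y' : ℤ} (hm : 1 ≤ m)
    (h1 : a + m ≤ b) (h2 : x + m ≤ y) (h4 : 0 ≤ a) (h5 : b ≤ n) (h6 : 0 ≤ x)
    (h7 : y ≤ m)
    (h1' : a' + m ≤ b') (h2' : x' + m ≤ y') (h4' : 0 ≤ a') (h5' : b' ≤ n) (h6' : 0 ≤ x')
    (h7' : y' ≤ m)
    (h : (b - a - m) / 2 = (b' - a' - m) / 2)
    (hle : a + b ≤ a' + b') :
    (a = a' ∧ x = x' ∧ b = b' ∧ y = y') ∨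
      (a ≤ a' ∧ x ≤ x' ∧ b ≤ b' ∧ y ≤ y' ∧ (a' < b ∨ x' < y)) := by
  omega

end K1H16.TS
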