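import Pool.Agent.K1H16.TS.P0

/-!
# Bound for the outer layer, by shells
-/

set_option linter.unusedVariables false
set_option linter.unusedSectionVars false

namespace K1H16.TS

/-- the outer layer of the grid -/
def OL (n m : ℤ) (u : Pr) : Prop := Gr n m u ∧ (u.a = 0 ∨ u.y = m)

/-- both intervals have length at least `j` -/
def big (j : ℤ) (u : Pr) : Prop := u.a + j ≤ u.b ∧ u.x + j ≤ u.y

instance (j : ℤ) : DecidablePred (big j) := fun u => by unfold big; infer_instance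

/-- the shell of `S` with minimal length `j` or `j+1` -/
def sh (S : Finset Pr) (j : ℤ) : Finset Pr := S.filter (fun u => big j u ∧ ¬ big (j + 2) u)

theorem mem_sh {S : Finset Pr} {j : ℤ} {u : Pr} :
    u ∈ sh S j ↔ u ∈ S ∧ (u.a + j ≤ u.b ∧ u.x + j ≤ u.y) ∧
      ¬ (u.a + j + 2 ≤ u.b ∧ u.x + j + 2 ≤ u.y) := by
  unfold sh big
  rw [Finset.mem_filter]
  constructor
  · rintro ⟨h1, h2, h3⟩
    exact ⟨h1, h2, by omega⟩
  · rintro ⟨h1, h2, h3⟩
    exact ⟨h1, h2, by omega⟩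

theorem card_split (S : Finset Pr) (j : ℤ) :
    (S.filter (big j)).card = (sh S j).card + (S.filter (big (j + 2))).card := by
  have h1 : sh S j = (S.filter (big j)).filter (fun u => ¬ big (j + 2) u) := by
    ext u; simp [sh, Finset.mem_filter, and_assoc]
  have h2 : S.filter (big (j + 2)) = (S.filter (big j)).filter (big (j + 2)) := by
    ext u
    simp only [Finset.mem_filter]
    constructor
    · rintro ⟨h1, h2⟩
      refine ⟨⟨h1, ?_⟩, h2⟩
      unfold big at *; omega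
    · rintro ⟨⟨h1, _⟩, h2⟩
      exact ⟨h1, h2⟩
  rw [h1, h2, add_comm, Finset.card_filter_add_card_filter_not]

theorem ok_of_eq {u v : Pr} (h : u.a = v.a ∧ u.x = v.x ∧ u.b = v.b ∧ u.y = v.y) : u = v := by
  obtain ⟨h1, h2, h3, h4⟩ := h
  ext <;> assumption

/-- index function on shell `0` -/
def f0 (m : ℤ) (u : Pr) : ℤ := i0 m u.x u.b (zc m u)
/-- index function on shell `j` -/
def f1 (m j : ℤ) (u : Pr) : ℤ := i1 (m - j) u.x (u.b - j) (zc m u - j)
/-- index function on the core -/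
def f2 (m : ℤ) (u : Pr) : ℤ := (u.b - u.a - m) / 2

section
variable {n m : ℕ} {S : Finset Pr} (hnm : m ≤ n) (hS : Ind S) (hO : ∀ u ∈ S, OL n m u)
include hnm hO

theorem f0_range (hm : 1 ≤ m) : ∀ u ∈ sh S 0, 0 ≤ f0 m u ∧ f0 m u < (n + m : ℕ) := by
  intro u hu
  rw [mem_sh] at hu
  obtain ⟨hu, h9, h9'⟩ := hu
  obtain ⟨⟨⟨h1, h2, h3⟩, h4, h5, h6, h7⟩, h8⟩ := hO u hu
  have := i0_range (n := n) (m := m) (by exact_mod_cast hm) (by exact_mod_cast hnm) h1 h2 h3 h4 h5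
    h6 h7 (zc_Zr h4 h8) (by omega)
  push_cast
  exact this

theorem f0_clique (hm : 1 ≤ m) : ∀ u ∈ sh S 0, ∀ v ∈ sh S 0, f0 m u = f0 m v →
    u = v ∨ Cf u v ∨ Cf v u := by
  intro u hu v hv h
  rw [mem_sh] at hu hv
  obtain ⟨hu, h9, h9'⟩ := hu
  obtain ⟨hv, k9, k9'⟩ := hv
  obtain ⟨⟨⟨h1, h2, h3⟩, h4, h5, h6, h7⟩, h8⟩ := hO u hu
  obtain ⟨⟨⟨k1, k2, k3⟩, k4, k5, k6, k7⟩, k8⟩ := hO v hv
  have hm' : (1:ℤ) ≤ m := by exact_mod_cast hm
  have hn' : (m:ℤ) ≤ n := by exact_mod_cast hnm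
  rcases le_total (u.x + u.b + zc m u) (v.x + v.b + zc m v) with hl | hl
  · rcases i0_clique hm' hn' h1 h2 h3 h4 h5 h6 h7 (zc_Zr h4 h8) (by omega) k1 k2 k3 k4 k5 k6 k7
      (zc_Zr k4 k8) (by omega) h hl with e | e
    · exact Or.inl (ok_of_eq e)
    · exact Or.inr (Or.inl e)
  · rcases i0_clique hm' hn' k1 k2 k3 k4 k5 k6 k7 (zc_Zr k4 k8) (by omega) h1 h2 h3 h4 h5 h6 h7
      (zc_Zr h4 h8) (by omega) h.symm hl with e | e
    · exact Or.inl (ok_of_eq e).symm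
    · exact Or.inr (Or.inr e)

theorem f1_range {j : ℕ} (hj : 2 ≤ j) (hm : j + 1 ≤ m) :
    ∀ u ∈ sh S j, 0 ≤ f1 m j u ∧ f1 m j u < (n - j + (m - j) : ℕ) := by
  intro u hu
  rw [mem_sh] at hu
  obtain ⟨hu, h9, h9'⟩ := hu
  obtain ⟨⟨⟨h1, h2, h3⟩, h4, h5, h6, h7⟩, h8⟩ := hO u hu
  have := i1_range (n := n) (m := m) (j := j) (by exact_mod_cast hj) (by exact_mod_cast hm)
    (by exact_mod_cast hnm) h9.1 h9.2 h4 h5 h6 h7 (zc_Zr h4 h8) (by omega)
  rw [Nat.cast_add, Nat.cast_sub (by omega), Nat.cast_sub (by omega)]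
  exact this

theorem f1_clique {j : ℕ} (hj : 2 ≤ j) (hm : j + 1 ≤ m) : ∀ u ∈ sh S j, ∀ v ∈ sh S j,
    f1 m j u = f1 m j v → u = v ∨ Cf u v ∨ Cf v u := by
  intro u hu v hv h
  rw [mem_sh] at hu hv
  obtain ⟨hu, h9, h9'⟩ := hu
  obtain ⟨hv, k9, k9'⟩ := hv
  obtain ⟨⟨⟨h1, h2, h3⟩, h4, h5, h6, h7⟩, h8⟩ := hO u hu
  obtain ⟨⟨⟨k1, k2, k3⟩, k4, k5, k6, k7⟩, k8⟩ := hO v hv
  have hj' : (2:ℤ) ≤ j := by exact_mod_cast hj
  have hm' : (j:ℤ) + 1 ≤ m := by exact_mod_cast hm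
  have hn' : (m:ℤ) ≤ n := by exact_mod_cast hnm
  rcases le_total (u.x + u.b + zc m u) (v.x + v.b + zc m v) with hl | hl
  · rcases i1_clique hj' hm' hn' h9.1 h9.2 h4 h5 h6 h7 (zc_Zr h4 h8) (by omega) k9.1 k9.2 k4 k5 k6 k7
      (zc_Zr k4 k8) (by omega) h hl with e | e
    · exact Or.inl (ok_of_eq e)
    · exact Or.inr (Or.inl e)
  · rcases i1_clique hj' hm' hn' k9.1 k9.2 k4 k5 k6 k7 (zc_Zr k4 k8) (by omega) h9.1 h9.2 h4 h5 h6 h7
      (zc_Zr h4 h8) (by omega) h.symm hl with e | e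
    · exact Or.inl (ok_of_eq e).symm
    · exact Or.inr (Or.inr e)

theorem f2_range : ∀ u ∈ S.filter (big m), 0 ≤ f2 m u ∧ f2 m u < ((n - m) / 2 + 1 : ℕ) := by
  intro u hu
  rw [Finset.mem_filter] at hu
  obtain ⟨hu, h9⟩ := hu
  obtain ⟨⟨⟨h1, h2, h3⟩, h4, h5, h6, h7⟩, h8⟩ := hO u hu
  unfold big at h9
  unfold f2
  push_cast
  rw [Nat.cast_sub hnm]
  omega

theorem f2_clique (hm : 1 ≤ m) : ∀ u ∈ S.filter (big m), ∀ v ∈ S.filter (big m), f2 m u = f2 m v →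
    u = v ∨ Cf u v ∨ Cf v u := by
  intro u hu v hv h
  rw [Finset.mem_filter] at hu hv
  obtain ⟨hu, h9⟩ := hu
  obtain ⟨hv, k9⟩ := hv
  obtain ⟨⟨⟨h1, h2, h3⟩, h4, h5, h6, h7⟩, h8⟩ := hO u hu
  obtain ⟨⟨⟨k1, k2, k3⟩, k4, k5, k6, k7⟩, k8⟩ := hO v hv
  have hm' : (1:ℤ) ≤ m := by exact_mod_cast hm
  rcases le_total (u.a + u.b) (v.a + v.b) with hl | hl
  · rcases core_clique hm' h9.1 h9.2 h4 h5 h6 h7 k9.1 k9.2 k4 k5 k6 k7 h hl with e | e
    · exact Or.inl (ok_of_eq e)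
    · exact Or.inr (Or.inl e)
  · rcases core_clique hm' k9.1 k9.2 k4 k5 k6 k7 h9.1 h9.2 h4 h5 h6 h7 h.symm hl with e | e
    · exact Or.inl (ok_of_eq e).symm
    · exact Or.inr (Or.inr e)

include hS

theorem sh0_le (hm : 1 ≤ m) : (sh S 0).card ≤ n + m :=
  card_le_idx (hS.subset (Finset.filter_subset _ _)) (f0 m) _ (f0_range hnm hO hm)
    (f0_clique hnm hO hm)

theorem sh1_le {j : ℕ} (hj : 2 ≤ j) (hm : j + 1 ≤ m) : (sh S j).card ≤ n - j + (m - j) :=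
  card_le_idx (hS.subset (Finset.filter_subset _ _)) (f1 m j) _ (f1_range hnm hO hj hm)
    (f1_clique hnm hO hj hm)

theorem core_le (hm : 1 ≤ m) : (S.filter (big m)).card ≤ (n - m) / 2 + 1 :=
  card_le_idx (hS.subset (Finset.filter_subset _ _)) (f2 m) _ (f2_range hnm hO)
    (f2_clique hnm hO hm)

end

/-- the bound for `L_j`, with `D = n - m` and `M = m - j` -/
def g (D : ℕ) : ℕ → ℕ
  | 0 => D / 2 + 1
  | 1 => D + 2
  | (M + 2) => g D M + (D + 2 * M + 4)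

theorem big_empty {n m : ℕ} {S : Finset Pr} (hO : ∀ u ∈ S, OL n m u) {j : ℤ} (hj : (m:ℤ) < j) :
    S.filter (big j) = ∅ := by
  rw [Finset.filter_eq_empty_iff]
  intro u hu
  obtain ⟨⟨⟨h1, h2, h3⟩, h4, h5, h6, h7⟩, h8⟩ := hO u hu
  unfold big
  omega

theorem Lj_le {n m : ℕ} {S : Finset Pr} (hnm : m ≤ n) (hS : Ind S) (hO : ∀ u ∈ S, OL n m u)
    (M : ℕ) : ∀ j : ℕ, m = j + M → 2 ≤ j → (S.filter (big j)).card ≤ g (n - m) M := by
  induction M using Nat.strong_induction_on with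
  | _ M ih =>
    intro j hj h2
    match M, ih with
    | 0, _ =>
      have : j = m := by omega
      subst this
      exact core_le hnm hS hO (by omega)
    | 1, _ =>
      rw [card_split, big_empty hO (by omega)]
      have := sh1_le hnm hS hO h2 (by omega)
      simp only [g, Finset.card_empty]
      omega
    | (M + 2), ih =>
      rw [card_split]
      have h := sh1_le hnm hS hO h2 (by omega)
      have h' := ih M (by omega) (j + 2) (by omega) (by omega)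
      rw [show (((j + 2 : ℕ) : ℤ)) = (j : ℤ) + 2 by push_cast; ring] at h'
      simp only [g]
      omega

/-- **Bound for the outer layer.** -/
theorem OL_le {n m : ℕ} {S : Finset Pr} (hnm : m ≤ n) (hm : 1 ≤ m) (hS : Ind S)
    (hO : ∀ u ∈ S, OL n m u) : S.card ≤ g (n - m) m := by
  have h0 : S.filter (big 0) = S := by
    rw [Finset.filter_eq_self]
    intro u hu
    obtain ⟨⟨⟨h1, h2, h3⟩, h4, h5, h6, h7⟩, h8⟩ := hO u hu
    unfold big; omega
  rw [← h0, card_split]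
  have h := sh0_le hnm hS hO hm
  match m, hm with
  | 1, _ =>
    rw [big_empty hO (by norm_num)]
    simp only [g, Finset.card_empty]
    omega
  | (M + 2), _ =>
    have h' := Lj_le hnm hS hO M 2 (by omega) (by omega)
    rw [show (((2 : ℕ) : ℤ)) = (0 : ℤ) + 2 by norm_num] at h'
    simp only [g]
    omega

theorem g_two (D M : ℕ) : 2 * g D M = (D + M + 1) * (M + 1) + (if D % 2 = 0 ∧ M % 2 = 0 then 1 else 0) := by
  induction M using Nat.strong_induction_on with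
  | _ M ih =>
    match M, ih with
    | 0, _ =>
      simp only [g]
      split_ifs with h
      · omega
      · have : ¬ D % 2 = 0 := fun h' => h ⟨h', trivial⟩
        omega
    | 1, _ => simp [g]; ring
    | (M + 2), ih =>
      have := ih M (by omega)
      simp only [g, Nat.mul_add, this]
      have e : (M + 2) % 2 = M % 2 := by omega
      rw [e]
      split_ifs <;> ring

end K1H16.TS
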