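import Pool.Agent.K1H16.TS.P0

/-!
# Arithmetic steps for the structure theorem, inner shells
-/

set_option linter.unusedVariables false

namespace K1H16.TS

/-- coordinates of an element of shell `j` -/
def Sh (n m j a x b y z : ℤ) : Prop :=
  a + j ≤ b ∧ x + j ≤ y ∧ (a < b ∨ x < y) ∧ 0 ≤ a ∧ b ≤ n ∧ 0 ≤ x ∧ y ≤ m ∧ Zr m a y z ∧
    ¬ (a + j + 2 ≤ b ∧ x + j + 2 ≤ y)

/-- equal or not in conflict -/
def NC (a x b y c w d v : ℤ) : Prop :=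
  (a = c ∧ x = w ∧ b = d ∧ y = v) ∨
    (¬ (a ≤ c ∧ x ≤ w ∧ b ≤ d ∧ y ≤ v ∧ (c < b ∨ w < y)) ∧
      ¬ (c ≤ a ∧ w ≤ x ∧ d ≤ b ∧ v ≤ y ∧ (a < d ∨ x < v)))

variable {n m j a x b y z x0 b0 : ℤ}

theorem A1 (hj : 2 ≤ j) (hm : j + 2 ≤ m) (hn : m ≤ n) (h : Sh n m j a x b y z)
    (e : x0 + 2 * b0 = n + j) (h0 : 0 ≤ x0) (h1 : x0 ≤ m - j - 2)
    (hi : i1 (m - j) x (b - j) (z - j) = x0)
    (c1 : NC a x b y (b0 - j - 1) x0 (b0 + 1) m) :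
    a = b0 - j ∧ x = x0 ∧ b = b0 ∧ y = m := by
  unfold Sh Zr at h
  unfold NC at c1
  unfold i1 at hi
  split_ifs at hi <;> omega

theorem A2 (hj : 2 ≤ j) (hm : j + 2 ≤ m) (hn : m ≤ n) (h : Sh n m j a x b y z)
    (e : x0 + 2 * b0 = n + j + 1) (h0 : 1 ≤ x0) (h1 : x0 ≤ m - j - 3)
    (hi : i1 (m - j) x (b - j) (z - j) = x0)
    (c1 : NC a x b y (b0 - j - 1) (x0 + 1) (b0 - 1) m)
    (c2 : NC a x b y (b0 - j) (x0 - 1) b0 m) :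
    a = b0 - j - 1 ∧ x = x0 ∧ b = b0 ∧ y = m := by
  unfold Sh Zr at h
  unfold NC at c1 c2
  unfold i1 at hi
  split_ifs at hi <;> omega

theorem A3 (hj : 2 ≤ j) (hm : j + 2 ≤ m) (hn : m ≤ n) (h : Sh n m j a x b y z)
    (e : 2 * x0 + b0 = n + m - j) (h0 : 0 ≤ x0) (h1 : x0 ≤ m - j - 1) (h2 : b0 ≤ n)
    (hi : i1 (m - j) x (b - j) (z - j) = m - j + (b0 - j) - 1)
    (c1 : NC a x b y 0 (x0 - 1) b0 (x0 + j + 1)) :
    a = 0 ∧ x = x0 ∧ b = b0 ∧ y = x0 + j := by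
  unfold Sh Zr at h
  unfold NC at c1
  unfold i1 at hi
  split_ifs at hi <;> omega

theorem A4 (hj : 2 ≤ j) (hm : j + 2 ≤ m) (hn : m ≤ n) (h : Sh n m j a x b y z)
    (e : 2 * x0 + b0 = n + m - j - 1) (h0 : 0 ≤ x0) (h1 : x0 ≤ m - j - 2) (h2 : b0 + 1 ≤ n)
    (hi : i1 (m - j) x (b - j) (z - j) = m - j + (b0 - j) - 1)
    (c1 : NC a x b y 0 x0 (b0 + 1) (x0 + j))
    (c2 : NC a x b y 0 (x0 + 1) (b0 - 1) (x0 + j + 1)) :
    a = 0 ∧ x = x0 ∧ b = b0 ∧ y = x0 + j + 1 := by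
  unfold Sh Zr at h
  unfold NC at c1 c2
  unfold i1 at hi
  split_ifs at hi <;> omega

/-- `(aw, yw)` are the coordinates of the known element above. -/
theorem A5 {aw yw : ℤ} (hj : 2 ≤ j) (hm : j + 2 ≤ m) (hn : m ≤ n) (h : Sh n m j a x b y z)
    (h1 : n - m + 2 * j + 2 ≤ 2 * b0) (h2 : b0 ≤ n - m + j + 1)
    (hi : i1 (m - j) x (b - j) (z - j) = m - j + (b0 - j) - 1)
    (hw : Zr m aw yw (n + j - b0)) (hy : yw ≤ m)
    (c1 : NC a x b y aw (m - j - 1) (b0 + 1) yw)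
    (c2 : NC a x b y (n + j + 2 - b0 - m) (m - j - 2) b0 m) :
    a = n + j + 1 - b0 - m ∧ x = m - j - 1 ∧ b = b0 ∧ y = m := by
  unfold Sh Zr at h
  unfold Zr at hw
  unfold NC at c1 c2
  unfold i1 at hi
  split_ifs at hi <;> omega

theorem A6a (hj : 2 ≤ j) (hm : j + 2 ≤ m) (hn : m ≤ n) (h : Sh n m j a x b y z)
    (e : 2 * b0 = n - m + 2 * j)
    (hi : (b0 = n - m + j ∧ i1 (m - j) x (b - j) (z - j) = m - j - 1) ∨
      (b0 < n - m + j ∧ i1 (m - j) x (b - j) (z - j) = n - b0 - 1))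
    (c1 : NC a x b y (n + j - b0 - m) (m - j - 1) (b0 + 1) m) :
    a = n + j - b0 - m ∧ x = m - j ∧ b = b0 ∧ y = m := by
  unfold Sh Zr at h
  unfold NC at c1
  unfold i1 at hi
  split_ifs at hi <;> omega

theorem A6b (hj : 2 ≤ j) (hm : j + 2 ≤ m) (hn : m ≤ n) (h : Sh n m j a x b y z)
    (h1 : n - m + 2 * j + 2 ≤ 2 * b0) (h2 : b0 ≤ n - m + j)
    (hi : (b0 = n - m + j ∧ i1 (m - j) x (b - j) (z - j) = m - j - 1) ∨
      (b0 < n - m + j ∧ i1 (m - j) x (b - j) (z - j) = n - b0 - 1))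
    (c1 : NC a x b y (n + j - b0 - m + 1) (m - j) (b0 - 1) m)
    (c2 : NC a x b y (n + j - b0 - m) (m - j - 1) (b0 + 1) m) :
    a = n + j - b0 - m ∧ x = m - j ∧ b = b0 ∧ y = m := by
  unfold Sh Zr at h
  unfold NC at c1 c2
  unfold i1 at hi
  split_ifs at hi <;> omega

end K1H16.TS
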