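import Pool.Agent.K1H16.TS.StepsA

/-!
# Arithmetic steps for the structure theorem, outermost shell
-/

set_option linter.unusedVariables false

namespace K1H16.TS

variable {n m a x b y z x0 b0 k : ℤ}

theorem B1 (hm : 2 ≤ m) (hn : m ≤ n) (h : Sh n m 0 a x b y z)
    (e : x0 + 2 * b0 = n) (h0 : 0 ≤ x0) (h1 : x0 ≤ m - 2)
    (hi : i0 m x b z = x0)
    (c1 : NC a x b y (b0 - 1) x0 (b0 + 1) m) :
    a = b0 ∧ x = x0 ∧ b = b0 ∧ y = m := by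
  unfold Sh Zr at h
  unfold NC at c1
  unfold i0 at hi
  split_ifs at hi <;> omega

theorem B2 (hm : 2 ≤ m) (hn : m ≤ n) (h : Sh n m 0 a x b y z)
    (e : x0 + 2 * b0 = n + 1) (h0 : 1 ≤ x0) (h1 : x0 ≤ m - 3)
    (hi : i0 m x b z = x0)
    (c1 : NC a x b y (b0 - 1) (x0 + 1) (b0 - 1) m)
    (c2 : NC a x b y b0 (x0 - 1) b0 m)
    (c3 : NC a x b y (b0 - 2) x0 (b0 + 1) m) :
    a = b0 - 1 ∧ x = x0 ∧ b = b0 ∧ y = m := by
  unfold Sh Zr at h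
  unfold NC at c1 c2 c3
  unfold i0 at hi
  split_ifs at hi <;> omega

theorem B3 (hm : 2 ≤ m) (hn : m ≤ n) (h : Sh n m 0 a x b y z)
    (e : 2 * x0 + b0 = n + m) (h0 : 0 ≤ x0) (h1 : x0 ≤ m - 1) (h2 : b0 ≤ n)
    (hi : i0 m x b z = m + b0 - 1)
    (c1 : NC a x b y 0 (x0 - 1) b0 (x0 + 1)) :
    a = 0 ∧ x = x0 ∧ b = b0 ∧ y = x0 := by
  unfold Sh Zr at h
  unfold NC at c1
  unfold i0 at hi
  split_ifs at hi <;> omega

theorem B4 (hm : 2 ≤ m) (hn : m ≤ n) (h : Sh n m 0 a x b y z)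
    (e : 2 * x0 + b0 = n + m - 1) (h0 : 0 ≤ x0) (h1 : x0 ≤ m - 2) (h2 : b0 + 1 ≤ n)
    (hi : i0 m x b z = m + b0 - 1)
    (c1 : NC a x b y 0 x0 (b0 + 1) x0)
    (c2 : NC a x b y 0 (x0 + 1) (b0 - 1) (x0 + 1))
    (c3 : NC a x b y 0 (x0 - 1) b0 (x0 + 2)) :
    a = 0 ∧ x = x0 ∧ b = b0 ∧ y = x0 + 1 := by
  unfold Sh Zr at h
  unfold NC at c1 c2 c3
  unfold i0 at hi
  split_ifs at hi <;> omega

theorem B5 {aw yw : ℤ} (hm : 2 ≤ m) (hn : m ≤ n) (h : Sh n m 0 a x b y z)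
    (h1 : n - m + 4 ≤ 2 * b0) (h2 : b0 ≤ n - m + 1)
    (hi : i0 m x b z = m + b0 - 1)
    (hw : Zr m aw yw (n - b0)) (hy : yw ≤ m)
    (c1 : NC a x b y aw (m - 1) (b0 + 1) yw)
    (c2 : NC a x b y (n + 2 - b0 - m) (m - 2) b0 m) :
    a = n + 1 - b0 - m ∧ x = m - 1 ∧ b = b0 ∧ y = m := by
  unfold Sh Zr at h
  unfold Zr at hw
  unfold NC at c1 c2
  unfold i0 at hi
  split_ifs at hi <;> omega

theorem BD (hm : 2 ≤ m) (hk : 0 ≤ k) (hn : n = m + 2 * k) (h : Sh n m 0 a x b y z)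
    (hi : i0 m x b z = m - 1)
    (c1 : NC a x b y (k + 1) (m - 2) (k + 1) m)
    (c2 : 1 ≤ k → NC a x b y (k - 1) (m - 1) (k + 2) m) :
    a = k ∧ x = m - 1 ∧ b = k ∧ y = m := by
  unfold Sh Zr at h
  unfold NC at c1 c2
  unfold i0 at hi
  split_ifs at hi <;> omega

theorem BR {aw yw : ℤ} (hm : 2 ≤ m) (hk : 0 ≤ k) (hn : n = m + 2 * k) (h : Sh n m 0 a x b y z)
    (hi : i0 m x b z = m + k)
    (hw : Zr m aw yw (m + k - 1)) (hy : yw ≤ m)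
    (c1 : NC a x b y aw (m - 1) (k + 2) yw)
    (c2 : NC a x b y k (m - 1) k m) :
    a = k ∧ x = m ∧ b = k + 1 ∧ y = m := by
  unfold Sh Zr at h
  unfold Zr at hw
  unfold NC at c1 c2
  unfold i0 at hi
  split_ifs at hi <;> omega

theorem BL (hm : 2 ≤ m) (hk : 1 ≤ k) (hn : n = m + 2 * k) (h : Sh n m 0 a x b y z)
    (hi : i0 m x b z = m + k - 1)
    (c1 : NC a x b y (k - 1) (m - 1) (k + 2) m)
    (c2 : NC a x b y k m (k + 1) m) :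
    a = k - 1 ∧ x = m ∧ b = k ∧ y = m := by
  unfold Sh Zr at h
  unfold NC at c1 c2
  unfold i0 at hi
  split_ifs at hi <;> omega

end K1H16.TS
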