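import Pool.Agent.K1H16.TS.Stm
import Pool.Agent.K1H16.TS.StepsB

/-!
# The structure theorem: a conflict-free set of maximal size in the outer layer
-/

set_option linter.unusedVariables false

namespace K1H16.TS

structure Ctx (n m k : ℕ) (S : Finset Pr) : Prop where
  ev : m % 2 = 0
  hm : 2 ≤ m
  hn : n = m + 2 * k
  ind : Ind S
  ol : ∀ u ∈ S, OL n m u
  card : S.card = g (2 * k) m

variable {n m k : ℕ} {S : Finset Pr}

theorem Ctx.bigc (h : Ctx n m k S) : ∀ i : ℕ, 2 * i ≤ m →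
    (S.filter (big ((2 * i : ℕ) : ℤ))).card = g (2 * k) (m - 2 * i) ∧
    (2 * i + 2 ≤ m → (sh S ((2 * i : ℕ) : ℤ)).card = n - 2 * i + (m - 2 * i)) := by
  have hm := h.hm
  have hn := h.hn
  have hnm : m ≤ n := by omega
  have hk : n - m = 2 * k := by omega
  have key : ∀ i : ℕ, 2 * i + 2 ≤ m →
      (S.filter (big ((2 * i : ℕ) : ℤ))).card = g (2 * k) (m - 2 * i) →
      (sh S ((2 * i : ℕ) : ℤ)).card = n - 2 * i + (m - 2 * i) ∧
      (S.filter (big ((2 * (i + 1) : ℕ) : ℤ))).card = g (2 * k) (m - 2 * (i + 1)) := by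
    intro i hi hc
    have h1 := card_split S ((2 * i : ℕ) : ℤ)
    have h2 : (sh S ((2 * i : ℕ) : ℤ)).card ≤ n - 2 * i + (m - 2 * i) := by
      rcases Nat.eq_zero_or_pos i with h0 | h0
      · subst h0
        have := sh0_le hnm h.ind h.ol (by omega)
        simpa using this
      · exact sh1_le hnm h.ind h.ol (by omega) (by omega)
    have h3 := Lj_le hnm h.ind h.ol (m - 2 * (i + 1)) (2 * (i + 1)) (by omega) (by omega)
    rw [hk] at h3
    have e1 : ((2 * (i + 1) : ℕ) : ℤ) = ((2 * i : ℕ) : ℤ) + 2 := by push_cast; ring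
    rw [e1] at h3 ⊢
    obtain ⟨M, hM⟩ : ∃ M, m - 2 * (i + 1) = M := ⟨_, rfl⟩
    have e2 : m - 2 * i = M + 2 := by omega
    rw [hM] at h3 ⊢
    rw [e2] at hc h2 ⊢
    rw [hc] at h1
    simp only [g] at h1
    constructor <;> omega
  intro i
  induction i with
  | zero =>
    intro _
    have h0 : (S.filter (big ((2 * 0 : ℕ) : ℤ))).card = g (2 * k) (m - 2 * 0) := by
      have : S.filter (big ((2 * 0 : ℕ) : ℤ)) = S := by
        rw [Finset.filter_eq_self]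
        intro u hu
        obtain ⟨⟨⟨h1, h2, h3⟩, h4, h5, h6, h7⟩, h8⟩ := h.ol u hu
        unfold big; push_cast; omega
      rw [this, h.card]
      simp
    exact ⟨h0, fun h2 => (key 0 h2 h0).1⟩
  | succ i ih =>
    intro hi
    have h0 := (key i (by omega) (ih (by omega)).1).2
    exact ⟨h0, fun h2 => (key (i + 1) h2 h0).1⟩

theorem Ctx.hit1 (h : Ctx n m k S) (j : ℕ) (hj : 2 ≤ j) (hj2 : j % 2 = 0) (hjm : j + 2 ≤ m)
    (c : ℤ) (h0 : 0 ≤ c) (h1 : c < n - j + (m - j)) :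
    ∃ a x b y z : ℤ, (⟨a, x, b, y⟩ : Pr) ∈ S ∧ Sh n m j a x b y z ∧
      i1 (m - j) x (b - j) (z - j) = c := by
  have hn := h.hn
  have hnm : m ≤ n := by omega
  obtain ⟨i, rfl⟩ : ∃ i, j = 2 * i := ⟨j / 2, by omega⟩
  have hc := (h.bigc i (by omega)).2 hjm
  obtain ⟨u, hu, hf⟩ := surj_of_card (S := sh S ((2 * i : ℕ) : ℤ))
    (h.ind.subset (Finset.filter_subset _ _)) (f1 m ((2 * i : ℕ) : ℤ)) _ (f1_range hnm h.ol hj (by omega))
    (f1_clique hnm h.ol hj (by omega)) hc c h0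
    (by rw [Nat.cast_add, Nat.cast_sub (by omega), Nat.cast_sub (by omega)]; exact h1)
  rw [mem_sh] at hu
  obtain ⟨hu, h9, h9'⟩ := hu
  obtain ⟨⟨⟨k1, k2, k3⟩, k4, k5, k6, k7⟩, k8⟩ := h.ol u hu
  exact ⟨u.a, u.x, u.b, u.y, zc m u, hu, ⟨h9.1, h9.2, k3, k4, k5, k6, k7, zc_Zr k4 k8, h9'⟩, hf⟩

theorem Ctx.hit0 (h : Ctx n m k S) (c : ℤ) (h0 : 0 ≤ c) (h1 : c < n + m) :
    ∃ a x b y z : ℤ, (⟨a, x, b, y⟩ : Pr) ∈ S ∧ Sh n m 0 a x b y z ∧ i0 m x b z = c := by
  have hn := h.hn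
  have hm := h.hm
  have hnm : m ≤ n := by omega
  have hc := (h.bigc 0 (by omega)).2 (by omega)
  simp only [mul_zero, Nat.cast_zero, Nat.sub_zero] at hc
  obtain ⟨u, hu, hf⟩ := surj_of_card (S := sh S 0) (h.ind.subset (Finset.filter_subset _ _))
    (f0 m) _ (f0_range hnm h.ol (by omega))
    (f0_clique hnm h.ol (by omega)) hc c h0 (by push_cast; exact h1)
  rw [mem_sh] at hu
  obtain ⟨hu, h9, h9'⟩ := hu
  obtain ⟨⟨⟨k1, k2, k3⟩, k4, k5, k6, k7⟩, k8⟩ := h.ol u hu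
  exact ⟨u.a, u.x, u.b, u.y, zc m u, hu, ⟨by omega, by omega, k3, k4, k5, k6, k7, zc_Zr k4 k8, by omega⟩, hf⟩

theorem Ctx.hit2 (h : Ctx n m k S) (c : ℤ) (h0 : 0 ≤ c) (h1 : c ≤ k) :
    ∃ a x b y : ℤ, (⟨a, x, b, y⟩ : Pr) ∈ S ∧ a + m ≤ b ∧ x + m ≤ y ∧ 0 ≤ a ∧ b ≤ n ∧ 0 ≤ x ∧
      y ≤ m ∧ (b - a - m) / 2 = c := by
  have hn := h.hn
  have hm := h.hm
  have ev := h.ev
  have hnm : m ≤ n := by omega
  have hc := (h.bigc (m / 2) (by omega)).1
  have e : 2 * (m / 2) = m := by omega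
  rw [e, Nat.sub_self] at hc
  simp only [g] at hc
  obtain ⟨u, hu, hf⟩ := surj_of_card (h.ind.subset (Finset.filter_subset _ _))
    (f2 m) _ (f2_range hnm h.ol) (f2_clique hnm h.ol (by omega))
    (by rw [hc, show n - m = 2 * k by omega]) c h0 (by push_cast; rw [Nat.cast_sub hnm]; omega)
  rw [Finset.mem_filter] at hu
  obtain ⟨hu, h9, h9'⟩ := hu
  obtain ⟨⟨⟨k1, k2, k3⟩, k4, k5, k6, k7⟩, k8⟩ := h.ol u hu
  exact ⟨u.a, u.x, u.b, u.y, hu, h9, h9', k4, k5, k6, k7, hf⟩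

theorem Ctx.nc (h : Ctx n m k S) {a x b y c w d v : ℤ} (hu : (⟨a, x, b, y⟩ : Pr) ∈ S)
    (hv : (⟨c, w, d, v⟩ : Pr) ∈ S) : NC a x b y c w d v := by
  by_cases e : (⟨a, x, b, y⟩ : Pr) = ⟨c, w, d, v⟩
  · left
    simpa using e
  · right
    constructor
    · intro hc
      exact e (h.ind _ hu _ hv hc)
    · intro hc
      exact e (h.ind _ hv _ hu hc).symm

theorem lv_hi {n m x b : ℤ} (h : x + b ≤ n) : lv n m x b = ⟨n - x - b, x, b, m⟩ := by
  unfold lv
  rw [max_eq_right (by omega), min_eq_left (by omega)]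

theorem lv_lo {n m x b : ℤ} (h : n ≤ x + b) : lv n m x b = ⟨0, x, b, n + m - x - b⟩ := by
  unfold lv
  rw [max_eq_left (by omega), min_eq_right (by omega)]

theorem lv_Zr {n m x b : ℤ} : Zr m (lv n m x b).a (lv n m x b).y (n + m - x - b) := by
  unfold lv Zr
  rcases le_total n (x + b) with h | h
  · left
    simp only
    omega
  · rcases h.lt_or_eq with h' | h'
    · right
      simp only
      omega
    · left
      simp only
      omega

/-- the level elements with both intervals of length at least `j` -/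
def PJ (n m : ℤ) (S : Finset Pr) (j : ℤ) : Prop :=
  ∀ x b : ℤ, 0 ≤ x → x ≤ m - j → b ≤ n → n + j ≤ x + 2 * b → 2 * x + b ≤ n + m - j →
    lv n m x b ∈ S

theorem Ctx.core (h : Ctx n m k S) : ∀ i : ℕ, i ≤ k → (⟨i, 0, n - i, m⟩ : Pr) ∈ S := by
  have hn := h.hn
  have hm := h.hm
  intro i
  induction i with
  | zero =>
    intro _
    obtain ⟨a, x, b, y, hu, h1, h2, h3, h4, h5, h6, h7⟩ := h.hit2 k (by positivity) le_rfl
    have : a = 0 ∧ x = 0 ∧ b = n ∧ y = m := by omega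
    obtain ⟨rfl, rfl, rfl, rfl⟩ := this
    simpa using hu
  | succ i ih =>
    intro hi
    have hv := ih (by omega)
    obtain ⟨a, x, b, y, hu, h1, h2, h3, h4, h5, h6, h7⟩ := h.hit2 (k - i - 1) (by omega) (by omega)
    have hc := h.nc hu hv
    unfold NC at hc
    have : a = i + 1 ∧ x = 0 ∧ b = n - (i + 1) ∧ y = m := by omega
    obtain ⟨rfl, rfl, rfl, rfl⟩ := this
    push_cast
    exact hu

theorem Ctx.PJ_top (h : Ctx n m k S) : PJ n m S m := by
  have hn := h.hn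
  have hm := h.hm
  intro x b h1 h2 h3 h4 h5
  have hx : x = 0 := by omega
  subst hx
  have := h.core (n - b).toNat (by omega)
  rw [lv_hi (by omega)]
  have e : (((n : ℤ) - b).toNat : ℤ) = n - b := by omega
  rw [e] at this
  simpa using this

end K1H16.TS
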