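import Pool.Agent.K1H16.TS.Struct

/-!
# The structure theorem: the induction over the shells
-/

set_option linter.unusedVariables false

namespace K1H16.TS

variable {n m k : ℕ} {S : Finset Pr}

theorem mem_of_eq {a x b y c w d v : ℤ} (hu : (⟨a, x, b, y⟩ : Pr) ∈ S)
    (e : a = c ∧ x = w ∧ b = d ∧ y = v) : (⟨c, w, d, v⟩ : Pr) ∈ S := by
  obtain ⟨rfl, rfl, rfl, rfl⟩ := e
  exact hu

theorem mem_hi {n m x b a : ℤ} (h : lv n m x b ∈ S) (hx : x + b ≤ n) (ha : n - x - b = a) :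
    (⟨a, x, b, m⟩ : Pr) ∈ S := by
  rw [lv_hi hx, ha] at h
  exact h

theorem mem_lo {n m x b y : ℤ} (h : lv n m x b ∈ S) (hx : n ≤ x + b) (ha : n + m - x - b = y) :
    (⟨0, x, b, y⟩ : Pr) ∈ S := by
  rw [lv_lo hx, ha] at h
  exact h

theorem hi_mem {n m x b a : ℤ} (h : (⟨a, x, b, m⟩ : Pr) ∈ S) (hx : x + b ≤ n)
    (ha : n - x - b = a) : lv n m x b ∈ S := by
  rw [lv_hi hx, ha]
  exact h

theorem lo_mem {n m x b y : ℤ} (h : (⟨0, x, b, y⟩ : Pr) ∈ S) (hx : n ≤ x + b)
    (ha : n + m - x - b = y) : lv n m x b ∈ S := by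
  rw [lv_lo hx, ha]
  exact h

theorem Ctx.step (h : Ctx n m k S) (j : ℕ) (hj : 2 ≤ j) (hj2 : j % 2 = 0) (hjm : j + 2 ≤ m)
    (hP : PJ n m S (j + 2)) : PJ n m S j := by
  have hn := h.hn
  have hm := h.hm
  have hev := h.ev
  have hj' : (2:ℤ) ≤ j := by omega
  have hjm' : (j:ℤ) + 2 ≤ m := by omega
  have hnm' : (m:ℤ) ≤ n := by omega
  -- (1)
  have s1 : ∀ x b : ℤ, 0 ≤ x → x ≤ m - j - 2 → x + 2 * b = n + j → (⟨b - j, x, b, m⟩ : Pr) ∈ S := by
    intro x b h0 h1 e
    obtain ⟨a', x', b', y', z', hu, hsh, hi⟩ := h.hit1 j hj hj2 hjm x h0 (by omega)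
    have kn : (⟨b - j - 1, x, b + 1, m⟩ : Pr) ∈ S :=
      mem_hi (hP x (b + 1) h0 (by omega) (by omega) (by omega) (by omega)) (by omega) (by omega)
    exact mem_of_eq hu (A1 hj' hjm' hnm' hsh e h0 h1 hi (h.nc hu kn))
  -- (3)
  have s3 : ∀ x b : ℤ, 0 ≤ x → x ≤ m - j - 1 → b ≤ n → 2 * x + b = n + m - j →
      (⟨0, x, b, x + j⟩ : Pr) ∈ S := by
    intro x b h0 h1 h2 e
    obtain ⟨a', x', b', y', z', hu, hsh, hi⟩ := h.hit1 j hj hj2 hjm (m - j + (b - j) - 1)
      (by omega) (by omega)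
    have kn : (⟨0, x - 1, b, x + j + 1⟩ : Pr) ∈ S :=
      mem_lo (hP (x - 1) b (by omega) (by omega) (by omega) (by omega) (by omega)) (by omega)
        (by omega)
    exact mem_of_eq hu (A3 hj' hjm' hnm' hsh e h0 h1 h2 hi (h.nc hu kn))
  -- (2)
  have s2 : ∀ x b : ℤ, 0 ≤ x → x ≤ m - j - 2 → x + 2 * b = n + j + 1 →
      (⟨b - j - 1, x, b, m⟩ : Pr) ∈ S := by
    intro x b h0 h1 e
    obtain ⟨a', x', b', y', z', hu, hsh, hi⟩ := h.hit1 j hj hj2 hjm x h0 (by omega)
    have k1 : (⟨b - j - 1, x + 1, b - 1, m⟩ : Pr) ∈ S :=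
      mem_of_eq (s1 (x + 1) (b - 1) (by omega) (by omega) (by omega)) (by omega)
    have k2 : (⟨b - j, x - 1, b, m⟩ : Pr) ∈ S :=
      mem_of_eq (s1 (x - 1) b (by omega) (by omega) (by omega)) (by omega)
    exact mem_of_eq hu (A2 hj' hjm' hnm' hsh e (by omega) (by omega) hi (h.nc hu k1) (h.nc hu k2))
  -- (4)
  have s4 : ∀ x b : ℤ, 0 ≤ x → x ≤ m - j - 2 → b ≤ n → 2 * x + b = n + m - j - 1 →
      (⟨0, x, b, x + j + 1⟩ : Pr) ∈ S := by
    intro x b h0 h1 h2 e
    obtain ⟨a', x', b', y', z', hu, hsh, hi⟩ := h.hit1 j hj hj2 hjm (m - j + (b - j) - 1)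
      (by omega) (by omega)
    have k1 : (⟨0, x, b + 1, x + j⟩ : Pr) ∈ S :=
      mem_of_eq (s3 x (b + 1) (by omega) (by omega) (by omega) (by omega)) (by omega)
    have k2 : (⟨0, x + 1, b - 1, x + j + 1⟩ : Pr) ∈ S :=
      mem_of_eq (s3 (x + 1) (b - 1) (by omega) (by omega) (by omega) (by omega)) (by omega)
    exact mem_of_eq hu (A4 hj' hjm' hnm' hsh e (by omega) (by omega) (by omega) hi
      (h.nc hu k1) (h.nc hu k2))
  -- (5)
  have s5 : ∀ i : ℕ, i ≤ k + 1 → lv n m (m - j - 1) (n - m + j + 2 - i) ∈ S := by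
    intro i
    induction i with
    | zero =>
      intro _
      exact lo_mem (s3 (m - j - 1) (n - m + j + 2 - (0 : ℕ)) (by omega) (by omega) (by omega)
        (by omega)) (by omega) (by omega)
    | succ i ih =>
      intro hi
      have hprev := ih (by omega)
      set b : ℤ := n - m + j + 2 - (i + 1 : ℕ) with hb
      have e1 : (n : ℤ) - m + j + 2 - i = b + 1 := by omega
      rw [e1] at hprev
      have hw := @lv_Zr n m (m - j - 1) (b + 1)
      rw [show (n : ℤ) + m - (m - j - 1) - (b + 1) = n + j - b by ring] at hw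
      obtain ⟨a', x', b', y', z', hu, hsh, hi'⟩ := h.hit1 j hj hj2 hjm (m - j + (b - j) - 1)
        (by omega) (by omega)
      have hkn : lv n m (m - j - 2) b ∈ S := by
        rcases lt_or_ge ((m : ℤ) - j - 2 + 2 * b) (n + j + 2) with hlt | hge
        · exact hi_mem (s1 (m - j - 2) b (by omega) (by omega) (by omega)) (by omega) (by omega)
        · exact hP (m - j - 2) b (by omega) (by omega) (by omega) (by omega) (by omega)
      have kn : (⟨n + j + 2 - b - m, m - j - 2, b, m⟩ : Pr) ∈ S :=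
        mem_hi hkn (by omega) (by omega)
      have hy : (lv n m (m - j - 1) (b + 1)).y ≤ m := by
        unfold lv; exact min_le_left _ _
      have hmem : (⟨(lv n m (m - j - 1) (b + 1)).a, m - j - 1, b + 1,
          (lv n m (m - j - 1) (b + 1)).y⟩ : Pr) ∈ S := hprev
      have := A5 hj' hjm' hnm' hsh (by omega) (by omega) hi' hw hy (h.nc hu hmem) (h.nc hu kn)
      exact hi_mem (mem_of_eq hu this) (by omega) (by omega)
  have s5' : ∀ b : ℤ, k + j + 1 ≤ b → b ≤ 2 * k + j + 2 → lv n m (m - j - 1) b ∈ S := by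
    intro b h1 h2
    have := s5 (n - m + j + 2 - b).toNat (by omega)
    have e : (n : ℤ) - m + j + 2 - ((n - m + j + 2 - b).toNat : ℤ) = b := by omega
    rw [e] at this
    exact this
  -- (6)
  have s6 : ∀ i : ℕ, i ≤ k → (⟨k - i, m - j, k + j + i, m⟩ : Pr) ∈ S := by
    intro i
    have hit : ∀ b : ℤ, k + j ≤ b → b ≤ 2 * k + j → ∃ a' x' b' y' z' : ℤ,
        (⟨a', x', b', y'⟩ : Pr) ∈ S ∧ Sh n m j a' x' b' y' z' ∧
        ((b = n - m + j ∧ i1 (m - j) x' (b' - j) (z' - j) = m - j - 1) ∨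
        (b < n - m + j ∧ i1 (m - j) x' (b' - j) (z' - j) = n - b - 1)) := by
      intro b h1 h2
      rcases lt_or_ge b (n - m + j) with hlt | hge
      · obtain ⟨a', x', b', y', z', hu, hsh, hi'⟩ := h.hit1 j hj hj2 hjm (n - b - 1)
          (by omega) (by omega)
        exact ⟨a', x', b', y', z', hu, hsh, Or.inr ⟨hlt, hi'⟩⟩
      · obtain ⟨a', x', b', y', z', hu, hsh, hi'⟩ := h.hit1 j hj hj2 hjm (m - j - 1)
          (by omega) (by omega)
        exact ⟨a', x', b', y', z', hu, hsh, Or.inl ⟨by omega, hi'⟩⟩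
    induction i with
    | zero =>
      intro _
      obtain ⟨a', x', b', y', z', hu, hsh, hi'⟩ := hit (k + j) (by omega) (by omega)
      have kn : (⟨n + j - (k + j) - m, m - j - 1, k + j + 1, m⟩ : Pr) ∈ S :=
        mem_hi (s5' (k + j + 1) (by omega) (by omega)) (by omega) (by omega)
      exact mem_of_eq (mem_of_eq hu (A6a hj' hjm' hnm' hsh (by omega) hi' (h.nc hu kn))) (by omega)
    | succ i ih =>
      intro hi
      have hprev := ih (by omega)
      obtain ⟨a', x', b', y', z', hu, hsh, hi'⟩ := hit (k + j + i + 1) (by omega) (by omega)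
      have k1 : (⟨n + j - (k + j + i + 1) - m + 1, m - j, k + j + i + 1 - 1, m⟩ : Pr) ∈ S :=
        mem_of_eq hprev (by omega)
      have k2 : (⟨n + j - (k + j + i + 1) - m, m - j - 1, k + j + i + 1 + 1, m⟩ : Pr) ∈ S :=
        mem_hi (s5' (k + j + i + 1 + 1) (by omega) (by omega)) (by omega) (by omega)
      exact mem_of_eq (mem_of_eq hu (A6b hj' hjm' hnm' hsh (by omega) (by omega) hi'
        (h.nc hu k1) (h.nc hu k2))) (by omega)
  -- conclusion
  intro x b h0 h1 h2 h3 h4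
  rcases eq_or_ne x (m - j) with hx | hx
  · subst hx
    have := s6 (b - k - j).toNat (by omega)
    refine hi_mem (a := n - (m - j) - b) (mem_of_eq this (by omega)) (by omega) rfl
  rcases eq_or_ne x (m - j - 1) with hx' | hx'
  · subst hx'
    exact s5' b (by omega) (by omega)
  by_cases c1 : x + 2 * b = n + j
  · exact hi_mem (s1 x b h0 (by omega) c1) (by omega) (by omega)
  by_cases c2 : x + 2 * b = n + j + 1
  · exact hi_mem (s2 x b h0 (by omega) c2) (by omega) (by omega)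
  by_cases c3 : 2 * x + b = n + m - j
  · exact lo_mem (s3 x b h0 (by omega) h2 c3) (by omega) (by omega)
  by_cases c4 : 2 * x + b = n + m - j - 1
  · exact lo_mem (s4 x b h0 (by omega) h2 c4) (by omega) (by omega)
  exact hP x b h0 (by omega) h2 (by omega) (by omega)

end K1H16.TS
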