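import Pool.Agent.K1H16.TS.Struct2

/-!
# The structure theorem: the outermost shell
-/

set_option linter.unusedVariables false

namespace K1H16.TS

variable {n m k : ℕ} {S : Finset Pr}

theorem Ctx.PJ_all (h : Ctx n m k S) : ∀ i : ℕ, 2 * i + 2 ≤ m → PJ n m S ((m - 2 * i : ℕ) : ℤ) := by
  intro i
  induction i with
  | zero => intro _; exact h.PJ_top
  | succ i ih =>
    intro hi
    have hev := h.ev
    have h1 := ih (by omega)
    have e : ((m - 2 * i : ℕ) : ℤ) = ((m - 2 * (i + 1) : ℕ) : ℤ) + 2 := by omega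
    rw [e] at h1
    exact h.step (m - 2 * (i + 1)) (by omega) (by omega) (by omega) h1

theorem Ctx.PJ_two (h : Ctx n m k S) : PJ n m S 2 := by
  have hev := h.ev
  have hm := h.hm
  have := h.PJ_all ((m - 2) / 2) (by omega)
  have e : ((m - 2 * ((m - 2) / 2) : ℕ) : ℤ) = 2 := by omega
  rw [e] at this
  exact this

theorem Ctx.final (h : Ctx n m k S) : Full n m k S ∧ (⟨k, m - 1, k, m⟩ : Pr) ∈ S ∧
    (1 ≤ k → (⟨k - 1, m, k, m⟩ : Pr) ∈ S) := by
  have hn := h.hn
  have hm := h.hm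
  have hev := h.ev
  have hm' : (2:ℤ) ≤ m := by omega
  have hnm' : (m:ℤ) ≤ n := by omega
  have hP := h.PJ_two
  -- (1')
  have s1 : ∀ x b : ℤ, 0 ≤ x → x ≤ m - 2 → x + 2 * b = n → (⟨b, x, b, m⟩ : Pr) ∈ S := by
    intro x b h0 h1 e
    obtain ⟨a', x', b', y', z', hu, hsh, hi⟩ := h.hit0 x h0 (by omega)
    have kn : (⟨b - 1, x, b + 1, m⟩ : Pr) ∈ S :=
      mem_hi (hP x (b + 1) h0 (by omega) (by omega) (by omega) (by omega)) (by omega) (by omega)
    exact mem_of_eq hu (B1 hm' hnm' hsh e h0 h1 hi (h.nc hu kn))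
  -- (3')
  have s3 : ∀ x b : ℤ, 0 ≤ x → x ≤ m - 1 → b ≤ n → 2 * x + b = n + m →
      (⟨0, x, b, x⟩ : Pr) ∈ S := by
    intro x b h0 h1 h2 e
    obtain ⟨a', x', b', y', z', hu, hsh, hi⟩ := h.hit0 (m + b - 1) (by omega) (by omega)
    have kn : (⟨0, x - 1, b, x + 1⟩ : Pr) ∈ S :=
      mem_lo (hP (x - 1) b (by omega) (by omega) (by omega) (by omega) (by omega)) (by omega)
        (by omega)
    exact mem_of_eq hu (B3 hm' hnm' hsh e h0 h1 h2 hi (h.nc hu kn))
  -- (2')
  have s2 : ∀ x b : ℤ, 0 ≤ x → x ≤ m - 2 → x + 2 * b = n + 1 → (⟨b - 1, x, b, m⟩ : Pr) ∈ S := by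
    intro x b h0 h1 e
    obtain ⟨a', x', b', y', z', hu, hsh, hi⟩ := h.hit0 x h0 (by omega)
    have k1 : (⟨b - 1, x + 1, b - 1, m⟩ : Pr) ∈ S :=
      mem_of_eq (s1 (x + 1) (b - 1) (by omega) (by omega) (by omega)) (by omega)
    have k2 : (⟨b, x - 1, b, m⟩ : Pr) ∈ S :=
      mem_of_eq (s1 (x - 1) b (by omega) (by omega) (by omega)) (by omega)
    have k3 : (⟨b - 2, x, b + 1, m⟩ : Pr) ∈ S :=
      mem_hi (hP x (b + 1) h0 (by omega) (by omega) (by omega) (by omega)) (by omega) (by omega)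
    exact mem_of_eq hu (B2 hm' hnm' hsh e (by omega) (by omega) hi (h.nc hu k1) (h.nc hu k2)
      (h.nc hu k3))
  -- (4')
  have s4 : ∀ x b : ℤ, 0 ≤ x → x ≤ m - 2 → b ≤ n → 2 * x + b = n + m - 1 →
      (⟨0, x, b, x + 1⟩ : Pr) ∈ S := by
    intro x b h0 h1 h2 e
    obtain ⟨a', x', b', y', z', hu, hsh, hi⟩ := h.hit0 (m + b - 1) (by omega) (by omega)
    have k1 : (⟨0, x, b + 1, x⟩ : Pr) ∈ S := s3 x (b + 1) (by omega) (by omega) (by omega) (by omega)
    have k2 : (⟨0, x + 1, b - 1, x + 1⟩ : Pr) ∈ S :=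
      s3 (x + 1) (b - 1) (by omega) (by omega) (by omega) (by omega)
    have k3 : (⟨0, x - 1, b, x + 2⟩ : Pr) ∈ S :=
      mem_lo (hP (x - 1) b (by omega) (by omega) (by omega) (by omega) (by omega)) (by omega)
        (by omega)
    exact mem_of_eq hu (B4 hm' hnm' hsh e (by omega) (by omega) (by omega) hi
      (h.nc hu k1) (h.nc hu k2) (h.nc hu k3))
  -- (5')
  have s5 : ∀ i : ℕ, i ≤ k → lv n m (m - 1) (n - m + 2 - i) ∈ S := by
    intro i
    induction i with
    | zero =>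
      intro _
      exact lo_mem (s3 (m - 1) (n - m + 2 - (0 : ℕ)) (by omega) (by omega) (by omega)
        (by omega)) (by omega) (by omega)
    | succ i ih =>
      intro hi
      have hprev := ih (by omega)
      set b : ℤ := n - m + 2 - (i + 1 : ℕ) with hb
      have e1 : (n : ℤ) - m + 2 - i = b + 1 := by omega
      rw [e1] at hprev
      have hw := @lv_Zr n m (m - 1) (b + 1)
      rw [show (n : ℤ) + m - (m - 1) - (b + 1) = n - b by ring] at hw
      obtain ⟨a', x', b', y', z', hu, hsh, hi'⟩ := h.hit0 (m + b - 1) (by omega) (by omega)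
      have kn : (⟨n + 2 - b - m, m - 2, b, m⟩ : Pr) ∈ S :=
        mem_hi (hP (m - 2) b (by omega) (by omega) (by omega) (by omega) (by omega))
          (by omega) (by omega)
      have hy : (lv n m (m - 1) (b + 1)).y ≤ m := by
        unfold lv; exact min_le_left _ _
      have hmem : (⟨(lv n m (m - 1) (b + 1)).a, m - 1, b + 1,
          (lv n m (m - 1) (b + 1)).y⟩ : Pr) ∈ S := hprev
      have := B5 hm' hnm' hsh (by omega) (by omega) hi' hw hy (h.nc hu hmem) (h.nc hu kn)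
      exact hi_mem (mem_of_eq hu this) (by omega) (by omega)
  have s5' : ∀ b : ℤ, k + 2 ≤ b → b ≤ 2 * k + 2 → lv n m (m - 1) b ∈ S := by
    intro b h1 h2
    have := s5 (n - m + 2 - b).toNat (by omega)
    have e : (n : ℤ) - m + 2 - ((n - m + 2 - b).toNat : ℤ) = b := by omega
    rw [e] at this
    exact this
  -- D
  have hSq : 1 ≤ k → (⟨k - 1, m - 1, k + 2, m⟩ : Pr) ∈ S := by
    intro hk
    exact mem_hi (s5' (k + 2) (by omega) (by omega)) (by omega) (by omega)
  have hD : (⟨k, m - 1, k, m⟩ : Pr) ∈ S := by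
    obtain ⟨a', x', b', y', z', hu, hsh, hi⟩ := h.hit0 (m - 1) (by omega) (by omega)
    have k1 : (⟨k + 1, m - 2, k + 1, m⟩ : Pr) ∈ S := s1 (m - 2) (k + 1) (by omega) (by omega) (by omega)
    exact mem_of_eq hu (BD hm' (by omega) (by omega) hsh hi (h.nc hu k1)
      (fun hk => h.nc hu (hSq (by omega))))
  -- R
  have hR : (⟨k, m, k + 1, m⟩ : Pr) ∈ S := by
    obtain ⟨a', x', b', y', z', hu, hsh, hi⟩ := h.hit0 (m + k) (by omega) (by omega)
    have hprev := s5' (k + 2) (by omega) (by omega)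
    have hw := @lv_Zr n m (m - 1) (k + 2)
    rw [show (n : ℤ) + m - (m - 1) - (k + 2) = m + k - 1 by omega] at hw
    have hy : (lv n m (m - 1) (k + 2)).y ≤ m := by
      unfold lv; exact min_le_left _ _
    have hmem : (⟨(lv n m (m - 1) (k + 2)).a, m - 1, k + 2,
        (lv n m (m - 1) (k + 2)).y⟩ : Pr) ∈ S := hprev
    exact mem_of_eq hu (BR hm' (by omega) (by omega) hsh hi hw hy (h.nc hu hmem) (h.nc hu hD))
  -- L
  have hL : 1 ≤ k → (⟨k - 1, m, k, m⟩ : Pr) ∈ S := by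
    intro hk
    obtain ⟨a', x', b', y', z', hu, hsh, hi⟩ := h.hit0 (m + k - 1) (by omega) (by omega)
    exact mem_of_eq hu (BL hm' (by omega) (by omega) hsh hi (h.nc hu (hSq hk)) (h.nc hu hR))
  refine ⟨⟨?_, hR⟩, hD, hL⟩
  intro x b h0 h1 hb0 h2 h3 h4 hne
  rcases eq_or_ne x (m - 1) with hx | hx
  · subst hx
    exact s5' b (by omega) (by omega)
  by_cases c1 : x + 2 * b = n
  · exact hi_mem (s1 x b h0 (by omega) c1) (by omega) (by omega)
  by_cases c2 : x + 2 * b = n + 1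
  · exact hi_mem (s2 x b h0 (by omega) c2) (by omega) (by omega)
  by_cases c3 : 2 * x + b = n + m
  · exact lo_mem (s3 x b h0 (by omega) h2 c3) (by omega) (by omega)
  by_cases c4 : 2 * x + b = n + m - 1
  · exact lo_mem (s4 x b h0 (by omega) h2 c4) (by omega) (by omega)
  exact hP x b h0 (by omega) h2 (by omega) (by omega)

theorem t_struct : S_struct := by
  intro n m k he hm hn S hS hO hc
  have ev : m % 2 = 0 := Nat.even_iff.1 he
  exact (Ctx.mk ev hm hn hS hO hc).final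

end K1H16.TS
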