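import Pool.Agent.K1H16.TS.Struct3
import Pool.Agent.K1H16.TS.Layers

/-!
# The upper bound, by removing layers
-/

set_option linter.unusedVariables false

namespace K1H16.TS

theorem inn_gr' {n m : ℕ} {S : Finset Pr} (hS : ∀ u ∈ S, Gr ((n + 1 : ℕ) : ℤ) ((m + 1 : ℕ) : ℤ) u) :
    ∀ u ∈ inn ((m + 1 : ℕ) : ℤ) S, Gr n m u := by
  have := inn_gr hS
  push_cast at this ⊢
  simpa using this

theorem out_le {n m : ℕ} {S : Finset Pr} (hnm : m ≤ n) (hm : 1 ≤ m) (hS : Ind S)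
    (hG : ∀ u ∈ S, Gr n m u) : (out m S).card ≤ g (n - m) m :=
  OL_le hnm hm (out_ind hS) (out_ol hG)

theorem up_odd (d : ℕ) : ∀ m : ℕ, ∀ S : Finset Pr, Ind S →
    (∀ u ∈ S, Gr ((m + 2 + 2 * d : ℕ) : ℤ) ((m + 1 : ℕ) : ℤ) u) →
    S.card ≤ F (m + 2 + 2 * d) (m + 1) := by
  intro m
  induction m with
  | zero =>
    intro S hS hG
    have h := one_le (n := 0 + 2 + 2 * d) hS (by simpa using hG)
    have e := F_odd d 1
    have e1 : (1 + 2).choose 2 = 3 := by decide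
    have e2 : (1 + 3).choose 3 = 4 := by decide
    rw [e1, e2] at e
    have e3 : F (0 + 2 + 2 * d) (0 + 1) = F (1 + 1 + 2 * d) 1 := by norm_num
    rw [e3, e]
    omega
  | succ m ih =>
    intro S hS hG
    have h1 := card_layers hG
    have h2 := out_le (n := m + 1 + 2 + 2 * d) (m := m + 1 + 1) (by omega) (by omega) hS hG
    have h3 := g_two (m + 1 + 2 + 2 * d - (m + 1 + 1)) (m + 1 + 1)
    rw [if_neg (by omega)] at h3
    have e0 : m + 1 + 2 + 2 * d - (m + 1 + 1) = 1 + 2 * d := by omega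
    rw [e0] at h2 h3
    have h4 := ih (inn ((m + 1 + 1 : ℕ) : ℤ) S) (inn_ind hS)
      (inn_gr' (n := m + 2 + 2 * d) (m := m + 1)
        (by rw [show m + 2 + 2 * d + 1 = m + 1 + 2 + 2 * d by ring]; exact hG))
    have h5 := F_rec_odd d (m + 1)
    have e1 : m + 1 + 1 + 2 * d = m + 2 + 2 * d := by ring
    rw [e1] at h5
    nlinarith

/-- the configuration for `m = 3` -/
theorem T4_use (hT4 : S_T4) (h : ℕ) (h1 : 1 ≤ h) (S : Finset Pr) (hS : Ind S)
    (hG : ∀ u ∈ S, Gr ((2 * h + 1 : ℕ) : ℤ) ((3 : ℕ) : ℤ) u)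
    (hc : (out ((2 : ℕ) : ℤ) (inn ((3 : ℕ) : ℤ) S)).card = g (2 * (h - 1)) 2) :
    (out ((3 : ℕ) : ℤ) S).card ≤ 2 * (2 * h + 1) := by
  have hG1 : ∀ u ∈ inn ((3 : ℕ) : ℤ) S, Gr ((2 * h : ℕ) : ℤ) ((2 : ℕ) : ℤ) u := inn_gr' hG
  obtain ⟨⟨hF, hR⟩, hD, hL⟩ := t_struct (2 * h) 2 (h - 1) (by decide) le_rfl (by omega) _
    (out_ind (inn_ind hS)) (out_ol hG1) hc
  have key : ∀ a x b y : ℤ, (⟨a, x, b, y⟩ : Pr) ∈ out ((2 : ℕ) : ℤ) (inn ((3 : ℕ) : ℤ) S) →
      (⟨a + 1, x, b + 1, y⟩ : Pr) ∈ S := by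
    intro a x b y hu
    exact (mem_inn.1 (Finset.mem_filter.1 hu).1).1
  have ek : ((h - 1 : ℕ) : ℤ) = h - 1 := by omega
  refine hT4 (2 * h + 1) h rfl h1 S hS hG ?_ ?_ ?_ ?_ ?_ ?_
  · intro p hp1 hp2
    have := hF 0 (2 * h + 1 - p) (by omega) (by omega) (by omega) (by omega) (by omega)
      (by omega) (by omega)
    have := key _ _ _ _ (mem_hi this (by omega) rfl)
    exact mem_of_eq this (by omega)
  · intro p hp1 hp2
    have := hF 1 (2 * h - p) (by omega) (by omega) (by omega) (by omega) (by omega)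
      (by omega) (by omega)
    have := key _ _ _ _ (mem_hi this (by omega) rfl)
    exact mem_of_eq this (by omega)
  · have := hF 1 (2 * h) (by omega) (by omega) (by omega) (by omega) (by omega)
      (by omega) (by omega)
    have := key _ _ _ _ (mem_lo this (by omega) rfl)
    exact mem_of_eq this (by omega)
  · exact mem_of_eq (key _ _ _ _ hD) (by omega)
  · exact mem_of_eq (key _ _ _ _ hR) (by omega)
  · intro h2
    exact mem_of_eq (key _ _ _ _ (hL (by omega))) (by omega)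

theorem up_two (d : ℕ) (S : Finset Pr) (hS : Ind S)
    (hG : ∀ u ∈ S, Gr ((2 + 2 * d : ℕ) : ℤ) ((2 : ℕ) : ℤ) u) : S.card ≤ F (2 + 2 * d) 2 := by
  have h1 := card_layers hG
  have h2 := out_le (n := 2 + 2 * d) (m := 2) (by omega) (by omega) hS hG
  have h3 := g_two (2 + 2 * d - 2) 2
  rw [if_pos (by omega)] at h3
  have h4 := one_le (n := 1 + 2 * d) (S := inn ((2 : ℕ) : ℤ) S) (inn_ind hS)
    (by
      have := inn_gr' (n := 1 + 2 * d) (m := 1) (S := S)
        (by rw [show 1 + 2 * d + 1 = 2 + 2 * d by ring]; exact hG)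
      simpa using this)
  have e : F (2 + 2 * d) 2 = 6 * ((2 + 2 * d) / 2) + 1 := by
    unfold F
    rw [if_neg (by omega), if_pos rfl]
  rw [e]
  omega

theorem F_three (d : ℕ) : F (3 + 2 * d) 3 = 10 * d + 14 := by
  have h1 := F_even d 3 le_rfl
  have e1 : (3 + 2).choose 2 = 10 := by decide
  have e2 : (3 + 3).choose 3 = 20 := by decide
  rw [e1, e2] at h1
  norm_num at h1
  omega

theorem up_three (hT4 : S_T4) (d : ℕ) (S : Finset Pr) (hS : Ind S)
    (hG : ∀ u ∈ S, Gr ((3 + 2 * d : ℕ) : ℤ) ((3 : ℕ) : ℤ) u) : S.card ≤ F (3 + 2 * d) 3 := by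
  have h1 := card_layers hG
  have h2 := out_le (n := 3 + 2 * d) (m := 3) (by omega) (by omega) hS hG
  have h3 := g_two (3 + 2 * d - 3) 3
  rw [if_neg (by omega)] at h3
  have hG1 : ∀ u ∈ inn ((3 : ℕ) : ℤ) S, Gr ((2 + 2 * d : ℕ) : ℤ) ((2 : ℕ) : ℤ) u :=
    inn_gr' (n := 2 + 2 * d) (m := 2) (by rw [show 2 + 2 * d + 1 = 3 + 2 * d by ring]; exact hG)
  have hS1 : Ind (inn ((3 : ℕ) : ℤ) S) := inn_ind hS
  have k1 := card_layers hG1
  have k2 := out_le (n := 2 + 2 * d) (m := 2) (by omega) (by omega) hS1 hG1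
  have k3 := g_two (2 + 2 * d - 2) 2
  rw [if_pos (by omega)] at k3
  have hG2 : ∀ u ∈ inn ((2 : ℕ) : ℤ) (inn ((3 : ℕ) : ℤ) S), Gr ((1 + 2 * d : ℕ) : ℤ) 1 u := by
    have := inn_gr' (n := 1 + 2 * d) (m := 1) (S := inn ((3 : ℕ) : ℤ) S)
      (by rw [show 1 + 2 * d + 1 = 2 + 2 * d by ring]; exact hG1)
    simpa using this
  have l1 := one_le (n := 1 + 2 * d) (inn_ind hS1) hG2
  rw [F_three]
  by_cases hc : (out ((2 : ℕ) : ℤ) (inn ((3 : ℕ) : ℤ) S)).card = g (2 + 2 * d - 2) 2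
  · have := T4_use hT4 (d + 1) (by omega) S hS
      (by rw [show 2 * (d + 1) + 1 = 3 + 2 * d by ring]; exact hG)
      (by rw [hc]; congr 1; omega)
    have e : (3 + 2 * d - 3 + 3 + 1) * (3 + 1) = 8 * d + 16 := by
      rw [show 3 + 2 * d - 3 = 2 * d by omega]; ring
    have e' : (2 + 2 * d - 2 + 2 + 1) * (2 + 1) = 6 * d + 9 := by
      rw [show 2 + 2 * d - 2 = 2 * d by omega]; ring
    rw [e] at h3
    rw [e'] at k3
    omega
  · have e : (3 + 2 * d - 3 + 3 + 1) * (3 + 1) = 8 * d + 16 := by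
      rw [show 3 + 2 * d - 3 = 2 * d by omega]; ring
    have e' : (2 + 2 * d - 2 + 2 + 1) * (2 + 1) = 6 * d + 9 := by
      rw [show 2 + 2 * d - 2 = 2 * d by omega]; ring
    rw [e] at h3
    rw [e'] at k3
    omega

theorem Full.mono {n m k : ℤ} {S T : Finset Pr} (h : Full n m k S) (hs : S ⊆ T) : Full n m k T :=
  ⟨fun x b h1 h2 h3 h4 h5 h6 h7 => hs (h.1 x b h1 h2 h3 h4 h5 h6 h7), hs h.2⟩

/-- bound for the second layer when the first one has maximal size -/
theorem T3_use (hT3 : S_T3) (m d : ℕ) (ev : m % 2 = 0) (hm : 4 ≤ m) (S : Finset Pr) (hS : Ind S)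
    (hG : ∀ u ∈ S, Gr ((m + 2 * d : ℕ) : ℤ) (m : ℤ) u)
    (hc : (out (m : ℤ) S).card = g (2 * d) m) :
    (out ((m : ℤ) - 1) (inn (m : ℤ) S)).card + 1 ≤ (m + 2 * d) * m / 2 := by
  obtain ⟨hF, -, -⟩ := t_struct (m + 2 * d) m d (Nat.even_iff.2 ev) (by omega) rfl _
    (out_ind hS) (out_ol hG) hc
  have := hT3 (m + 2 * d) m d (Nat.even_iff.2 ev) hm rfl S hS hG
    (hF.mono (Finset.filter_subset _ _))
  rw [card_out_inn]
  exact this

theorem up_even (hT3 : S_T3) (hT4 : S_T4) (d : ℕ) : ∀ m : ℕ, 2 ≤ m → ∀ S : Finset Pr, Ind S →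
    (∀ u ∈ S, Gr ((m + 2 * d : ℕ) : ℤ) (m : ℤ) u) → S.card ≤ F (m + 2 * d) m := by
  intro m
  induction m using Nat.strong_induction_on with
  | _ m ih =>
    intro hm S hS hG
    rcases Nat.lt_or_ge m 3 with h | h
    · have : m = 2 := by omega
      subst this
      exact up_two d S hS hG
    rcases Nat.lt_or_ge m 4 with h' | h'
    · have : m = 3 := by omega
      subst this
      exact up_three hT4 d S hS hG
    obtain ⟨M, rfl⟩ : ∃ M, m = M + 1 := ⟨m - 1, by omega⟩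
    have h1 := card_layers hG
    have h2 := out_le (n := M + 1 + 2 * d) (m := M + 1) (by omega) (by omega) hS hG
    have e0 : M + 1 + 2 * d - (M + 1) = 2 * d := by omega
    rw [e0] at h2
    have h3 := g_two (2 * d) (M + 1)
    have hG1 : ∀ u ∈ inn ((M + 1 : ℕ) : ℤ) S, Gr ((M + 2 * d : ℕ) : ℤ) (M : ℤ) u :=
      inn_gr' (by rw [show M + 2 * d + 1 = M + 1 + 2 * d by ring]; exact hG)
    have hS1 : Ind (inn ((M + 1 : ℕ) : ℤ) S) := inn_ind hS
    have h4 := ih M (by omega) (by omega) _ hS1 hG1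
    rcases Nat.mod_two_eq_zero_or_one M with ev | ev
    · -- `m = M + 1` odd
      rw [if_neg (by omega)] at h3
      have h5 := F_rec_oo d M (by omega) ev
      nlinarith
    · -- `m = M + 1` even
      rw [if_pos (by omega)] at h3
      have h5 := F_rec_ee d M (by omega) ev
      by_cases hc : (out ((M + 1 : ℕ) : ℤ) S).card = g (2 * d) (M + 1)
      · have h6 := T3_use hT3 (M + 1) d (by omega) (by omega) S hS hG hc
        have e1 : (((M + 1 : ℕ) : ℤ)) - 1 = (M : ℤ) := by push_cast; ring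
        rw [e1] at h6
        have k1 := card_layers hG1
        obtain ⟨L, rfl⟩ : ∃ L, M = L + 1 := ⟨M - 1, by omega⟩
        have hG2 : ∀ u ∈ inn ((L + 1 : ℕ) : ℤ) (inn ((L + 1 + 1 : ℕ) : ℤ) S),
            Gr ((L + 2 * d : ℕ) : ℤ) (L : ℤ) u :=
          inn_gr' (by rw [show L + 2 * d + 1 = L + 1 + 2 * d by ring]; exact hG1)
        have hS2 : Ind (inn ((L + 1 : ℕ) : ℤ) (inn ((L + 1 + 1 : ℕ) : ℤ) S)) := inn_ind hS1
        rcases Nat.lt_or_ge L 3 with hL | hL
        · -- `m = 4`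
          have : L = 2 := by omega
          subst this
          have l1 := card_layers hG2
          have l2 := out_le (n := 2 + 2 * d) (m := 2) (by omega) (by omega) hS2 hG2
          have l3 := g_two (2 + 2 * d - 2) 2
          rw [if_pos (by omega)] at l3
          have hG3 : ∀ u ∈ inn ((2 : ℕ) : ℤ) (inn ((2 + 1 : ℕ) : ℤ) (inn ((2 + 1 + 1 : ℕ) : ℤ) S)),
              Gr ((1 + 2 * d : ℕ) : ℤ) 1 u := by
            have := inn_gr' (n := 1 + 2 * d) (m := 1)
              (S := inn ((2 + 1 : ℕ) : ℤ) (inn ((2 + 1 + 1 : ℕ) : ℤ) S))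
              (by rw [show 1 + 2 * d + 1 = 2 + 2 * d by ring]; exact hG2)
            simpa using this
          have p1 := one_le (n := 1 + 2 * d) (inn_ind hS2) hG3
          have e2 : (2 + 2 * d - 2 + 2 + 1) * (2 + 1) = 6 * d + 9 := by
            rw [show 2 + 2 * d - 2 = 2 * d by omega]; ring
          rw [e2] at l3
          have e3 : F (2 + 1 + 2 * d) (2 + 1) = 10 * d + 14 := F_three d
          rw [e3] at h5
          have e4 : (2 * d + (2 + 1 + 1) + 1) * (2 + 1 + 1 + 1) = 10 * d + 25 := by ring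
          rw [e4] at h3
          have e5 : (2 + 1 + 1 + 2 * d + 1) * (2 + 1 + 2) = 10 * d + 25 := by ring
          rw [e5] at h5
          have e6 : (2 + 1 + 1 + 2 * d) * (2 + 1 + 1) / 2 = 4 * d + 8 := by
            rw [show (2 + 1 + 1 + 2 * d) * (2 + 1 + 1) = 2 * (4 * d + 8) by ring]; omega
          rw [e6] at h6
          by_cases hc2 : (out ((2 : ℕ) : ℤ) (inn ((2 + 1 : ℕ) : ℤ)
              (inn ((2 + 1 + 1 : ℕ) : ℤ) S))).card = g (2 + 2 * d - 2) 2
          · have q := T4_use hT4 (d + 1) (by omega) (inn ((2 + 1 + 1 : ℕ) : ℤ) S) hS1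
              (by rw [show 2 * (d + 1) + 1 = 2 + 1 + 2 * d by ring]; exact hG1)
              (by
                have : g (2 * (d + 1 - 1)) 2 = g (2 + 2 * d - 2) 2 := by congr 1; omega
                rw [this, ← hc2])
            have q' : (out ((2 + 1 : ℕ) : ℤ) (inn ((2 + 1 + 1 : ℕ) : ℤ) S)).card ≤
                2 * (2 * (d + 1) + 1) := q
            omega
          · omega
        · -- `m ≥ 6`
          have h7 := ih L (by omega) (by omega) _ hS2 hG2
          have h8 := F_rec_oo d L (by omega) (by omega)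
          have e2 : (L + 1 + 1 + 2 * d) * (L + 1 + 1) / 2 * 2 = (L + 1 + 1 + 2 * d) * (L + 1 + 1) :=
            Nat.div_mul_cancel (Dvd.dvd.mul_left (by omega) _)
          nlinarith
      · have h7 : (out ((M + 1 : ℕ) : ℤ) S).card + 1 ≤ g (2 * d) (M + 1) := by omega
        nlinarith

/-- the upper bound -/
theorem t_upper (hT3 : S_T3) (hT4 : S_T4) : S_upper := by
  intro n m hm hnm S hS hG
  rcases Nat.mod_two_eq_zero_or_one (n + m) with h | h
  · obtain ⟨d, rfl⟩ : ∃ d, n = m + 2 * d := ⟨(n - m) / 2, by omega⟩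
    exact up_even hT3 hT4 d m hm S hS hG
  · obtain ⟨d, rfl⟩ : ∃ d, n = m + 1 + 2 * d := ⟨(n - m - 1) / 2, by omega⟩
    obtain ⟨M, rfl⟩ : ∃ M, m = M + 1 := ⟨m - 1, by omega⟩
    have := up_odd d M S hS (by rw [show M + 2 + 2 * d = M + 1 + 1 + 2 * d by ring]; exact hG)
    rw [show M + 2 + 2 * d = M + 1 + 1 + 2 * d by ring] at this
    exact this

end K1H16.TS
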